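import Pool.Agent.P.MP_7f9919_an.G73.Sm

/-! Steps (2) - (6) of Theorem II. -/

set_option autoImplicit false
set_option linter.unusedSectionVars false

namespace Pool.Agent.P.MP_7f9919_an.NH

open Matrix Filter Asymptotics Subgroup Set
open scoped MatrixOrder ComplexOrder commutatorElement

namespace CoreP

section fin
variable {n S : Type} [Fintype n] [Fintype S] [DecidableEq n] {VV : S → Mat n n} {F : Fr n}

theorem EA_sub (a : S → Mat n n) (x y : Mat n n) : EA a (x - y) = EA a x - EA a y :=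
  map_sub (Com a).starProjection x y

theorem EA_sum {J : Type} [Fintype J] (a : S → Mat n n) (x : J → Mat n n) :
    EA a (∑ j, x j) = ∑ j, EA a (x j) := map_sum (Com a).starProjection x _

theorem sum1 (h : F.OK VV) : ∑ i, F.a i * (F.a i)ᴴ = 1 := by
  rw [← h.zs, ← Finset.sum_fiberwise Finset.univ F.lab]
  exact Finset.sum_congr rfl fun l _ => h.s1 l

theorem sum2 (h : F.OK VV) : ∑ i, (F.a i)ᴴ * F.a i = 1 := by
  rw [← h.zs, ← Finset.sum_fiberwise Finset.univ F.lab]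
  exact Finset.sum_congr rfl fun l _ => h.s2 l

theorem ps_herm (h : F.OK VV) (M : ℝ) : (F.ps M)ᴴ = F.ps M := by
  rw [Fr.ps, conjTranspose_sum]
  exact Finset.sum_congr rfl fun l _ => by rw [conjTranspose_smul, (h.zp l).1, star_trivial]

theorem ps_mem (h : F.OK VV) (M : ℝ) : F.ps M ∈ Com VV :=
  (Com VV).sum_mem fun l _ => real_smul_mem_Com _ (h.zm l)

theorem ps_comm (h : F.OK VV) (M : ℝ) {x : Mat n n} (hx : x ∈ Com VV) :
    F.ps M * x = x * F.ps M := by
  rw [Fr.ps, Matrix.sum_mul, Matrix.mul_sum]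
  exact Finset.sum_congr rfl fun l _ => by rw [Matrix.smul_mul, Matrix.mul_smul, h.zc l x hx]

theorem psi_sq {M l : ℝ} (hM : 0 < M) (hl : 0 < l) : psi M l * psi M l ≤ 1 / 4 := by
  have h0 : 0 ≤ l / (l + M) := by positivity
  have h1 : l / (l + M) ≤ 1 := by rw [div_le_one (by positivity)]; linarith
  unfold psi
  nlinarith

theorem ps_sq (h : F.OK VV) {M : ℝ} (hM : 0 < M) :
    F.ps M * F.ps M ≤ (1 / 4 : ℝ) • (1 : Mat n n) := by
  have e : F.ps M * F.ps M = ∑ l, (psi M (F.w l) * psi M (F.w l)) • F.z l := by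
    rw [Fr.ps, Matrix.sum_mul]
    refine Finset.sum_congr rfl fun l _ => ?_
    rw [Matrix.mul_sum, Finset.sum_eq_single l]
    · rw [Matrix.smul_mul, Matrix.mul_smul, (h.zp l).2, smul_smul]
    · intro l' _ hl
      rw [Matrix.smul_mul, Matrix.mul_smul, h.zo l l' hl.symm, smul_zero, smul_zero]
    · simp
  rw [e, ← h.zs, Finset.smul_sum]
  exact Finset.sum_le_sum fun l _ => smul_le_smul_of_le (psi_sq hM (h.wpos l)) (h.zp l).nonneg

theorem exists_scale (h : F.OK VV) (b : Mat n n) (hb : 0 ≤ b) :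
    ∃ M > 0, tr (F.ps M * b) = 0 := by
  have e : ∀ M, tr (F.ps M * b) = ∑ l, psi M (F.w l) * tr (F.z l * b) := fun M => by
    rw [Fr.ps, Matrix.sum_mul, tr_sum]
    exact Finset.sum_congr rfl fun l _ => by rw [Matrix.smul_mul, tr_smul]
  have hc : ∀ l, 0 ≤ tr (F.z l * b) := fun l => tr_mul_nonneg (h.zp l).nonneg hb
  have hw := h.wpos
  obtain ⟨M1, hM1⟩ := (Set.finite_range F.w).bddAbove
  obtain ⟨M0, hM0⟩ := (Set.finite_range fun l => (F.w l)⁻¹).bddAbove
  set A := (max M0 1)⁻¹ with hA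
  set B := max M1 1 with hB
  have hA0 : 0 < A := by positivity
  have hA1 : A ≤ 1 := inv_le_one_of_one_le₀ (le_max_right _ _)
  have hAB : A ≤ B := hA1.trans (le_max_right _ _)
  have hAw : ∀ l, A ≤ F.w l := fun l => by
    rw [hA, inv_le_comm₀ (by positivity) (hw l)]
    exact (hM0 ⟨l, rfl⟩).trans (le_max_left _ _)
  have hBw : ∀ l, F.w l ≤ B := fun l => (hM1 ⟨l, rfl⟩).trans (le_max_left _ _)
  have hcont : ContinuousOn (fun M => ∑ l, psi M (F.w l) * tr (F.z l * b)) (Icc A B) := by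
    refine continuousOn_finsetSum _ fun l _ => ContinuousOn.mul ?_ continuousOn_const
    unfold psi
    refine ContinuousOn.sub (ContinuousOn.div continuousOn_const (by fun_prop) fun M hM => ?_)
      continuousOn_const
    have := hw l
    have := hA0.trans_le hM.1
    positivity
  have h1 : 0 ≤ ∑ l, psi A (F.w l) * tr (F.z l * b) :=
    Finset.sum_nonneg fun l _ => mul_nonneg (by
      have := hw l
      unfold psi
      rw [sub_nonneg, le_div_iff₀ (by positivity)]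
      linarith [hAw l]) (hc l)
  have h2 : ∑ l, psi B (F.w l) * tr (F.z l * b) ≤ 0 :=
    Finset.sum_nonpos fun l _ => mul_nonpos_of_nonpos_of_nonneg (by
      have := hw l
      have := hA0.trans_le hAB
      unfold psi
      rw [sub_nonpos, div_le_iff₀ (by positivity)]
      linarith [hBw l]) (hc l)
  obtain ⟨M, hM, hM'⟩ := intermediate_value_Icc' hAB hcont ⟨h2, h1⟩
  exact ⟨M, hA0.trans_le hM.1, (e M).trans hM'⟩

theorem err_le (h : F.OK VV) {c : ℝ} (hc : 0 ≤ c) (hG : GapC VV c) {t : Mat n n} (ht : IsUni t)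
    (om : S → Mat n n) (hom : ∀ s, ∀ b ∈ Com VV, b * om s = om s * b) :
    c * F.err VV tᴴ ≤ 8 * ∑ s, ‖t * VV s * tᴴ - om s‖ ^ 2 := by
  have key : ∀ s, ∀ b ∈ Com VV, ‖VV s * (tᴴ * b * t) - tᴴ * b * t * VV s‖ ^ 2 =
      ‖(t * VV s * tᴴ - om s) * b - b * (t * VV s * tᴴ - om s)‖ ^ 2 := fun s b hb => by
    rw [← ht.norm_mul, ← ht.adj.mul_norm]
    congr 2
    simp only [Matrix.mul_sub, Matrix.sub_mul, Matrix.mul_assoc, ht.2, Matrix.mul_one, hom s b hb]
    rw [← Matrix.mul_assoc t tᴴ, ht.2, Matrix.one_mul]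
    abel
  have h1 := (sum1 h).le
  have h2 := (sum2 h).le
  rw [Fr.err, Finset.mul_sum, conjTranspose_conjTranspose]
  refine (Finset.sum_le_sum fun i _ => hG.le hc _).trans ?_
  simp only [D2, D, conjTranspose_mul, conjTranspose_conjTranspose, ← Matrix.mul_assoc tᴴ,
    Finset.sum_add_distrib]
  rw [Finset.sum_comm, Finset.sum_comm (f := fun i s => ‖VV s * (tᴴ * (F.a i)ᴴ * t) - _‖ ^ 2),
    ← Finset.sum_add_distrib, Finset.mul_sum]
  refine Finset.sum_le_sum fun s _ => ?_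
  have e1 := sum_norm_comm_sq_le Finset.univ h1 h2 (t * VV s * tᴴ - om s)
  have e2 := sum_norm_comm_sq_le Finset.univ (a := fun i => (F.a i)ᴴ) (by simpa using h2)
    (by simpa using h1) (t * VV s * tᴴ - om s)
  rw [Finset.sum_congr rfl fun i _ => key s _ (h.am i),
    Finset.sum_congr rfl fun i _ => key s _ (adj_mem_Com (h.am i))]
  linarith

theorem sq_sum_le {J : Type} [Fintype J] {a : J → Mat n n} (h0 : ∀ j, 0 ≤ a j)
    (h1 : ∑ j, a j ≤ 1) : ∑ j, a j * a j ≤ 1 :=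
  (Finset.sum_le_sum fun j _ => sq_le_self (h0 j)
    ((Finset.single_le_sum (fun i _ => h0 i) (Finset.mem_univ j)).trans h1)).trans h1

end fin

variable {ι : ℕ → Type} [∀ k, Fintype (ι k)] [∀ k, DecidableEq (ι k)]
  {J : ℕ → Type} [∀ k, Fintype (J k)]

/-- asymptotic commutation with a family -/
def Cm (Y : ∀ k, J k → Mat (ι k) (ι k)) (X : ∀ k, Mat (ι k) (ι k)) : Prop :=
  Sm ι fun k => ∑ j, ‖X k * Y k j - Y k j * X k‖ ^ 2

variable {Y : ∀ k, J k → Mat (ι k) (ι k)} {X X' : ∀ k, Mat (ι k) (ι k)}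

theorem Cm.congr (hY : ∀ k j, (Y k j)ᴴ = Y k j) (h1 : ∀ k, ∑ j, Y k j * Y k j ≤ 1) (h : Cm Y X)
    (e : Ap X X') : Cm Y X' := by
  refine ((Sm.cmul h 2).add (Sm.cmul e 8)).mono (fun k => by positivity) fun k => ?_
  have h2 := sum_norm_comm_sq_le Finset.univ (a := Y k) (by simpa only [hY] using h1 k)
    (by simpa only [hY] using h1 k) (X k - X' k)
  have h3 : ∀ j, ‖X' k * Y k j - Y k j * X' k‖ ^ 2 ≤ 2 * ‖X k * Y k j - Y k j * X k‖ ^ 2 +
      2 * ‖(X k - X' k) * Y k j - Y k j * (X k - X' k)‖ ^ 2 := fun j => by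
    refine le_of_eq_of_le ?_ (norm_sub_sq_le _ _)
    congr 2
    simp only [Matrix.mul_sub, Matrix.sub_mul]; abel
  have h4 := Finset.sum_le_sum fun j (_ : j ∈ Finset.univ) => h3 j
  rw [Finset.sum_add_distrib, ← Finset.mul_sum, ← Finset.mul_sum] at h4
  linarith

theorem Cm.mul (h : Cm Y X) (h' : Cm Y X') (hX : ∀ k, Ctr (X k)) (hX' : ∀ k, Ctr (X' k)) :
    Cm Y fun k => X k * X' k := by
  refine ((Sm.cmul h 2).add (Sm.cmul h' 2)).mono (fun k => by positivity) fun k => ?_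
  rw [Finset.mul_sum, Finset.mul_sum, ← Finset.sum_add_distrib]
  refine Finset.sum_le_sum fun j _ => ?_
  have h1 := norm_comm_mul_le (hX k) (hX' k) (a' := X' k) (b := X k) (Y k j)
  have h2 := pow_le_pow_left₀ (norm_nonneg _) h1 2
  nlinarith [sq_nonneg (‖X k * Y k j - Y k j * X k‖ - ‖X' k * Y k j - Y k j * X' k‖)]

theorem Cm.adj (h : Cm Y X) (hX : ∀ k, IsUni (X k)) : Cm Y fun k => (X k)ᴴ :=
  Sm.mono h (fun k => by positivity) fun k =>
    le_of_eq (Finset.sum_congr rfl fun j _ => by rw [norm_comm_adj (hX k) (hX k)])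

theorem Cm.of_comm (h : ∀ k j, X k * Y k j = Y k j * X k) : Cm Y X :=
  Sm.zero.mono (fun k => by positivity) fun k => by simp [h]

variable {G : Type} [Group G] {u : ∀ k, G → Mat (ι k) (ι k)}

theorem Cm.closure (hY : ∀ k j, (Y k j)ᴴ = Y k j) (h1 : ∀ k, ∑ j, Y k j * Y k j ≤ 1)
    (hu : AsRep u) {s : Set G} (h : ∀ g ∈ s, Cm Y fun k => u k g) {g : G} (hg : g ∈ closure s) :
    Cm Y fun k => u k g := by
  induction hg using closure_induction with
  | mem g hg => exact h g hg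
  | one => exact (Cm.of_comm (X := fun _ => 1) fun k j => by simp).congr hY h1 hu.one.symm
  | mul a b _ _ ha hb => exact (ha.mul hb (hu.ctr a) (hu.ctr b)).congr hY h1 (hu.mul a b).symm
  | inv a _ ha => exact (ha.adj fun k => hu.uni k a).congr hY h1 (hu.inv a).symm

theorem Cm.sumD {S : Type} [Fintype S] {v : ∀ k, S → Mat (ι k) (ι k)}
    (h : ∀ s, Cm Y fun k => v k s) : Sm ι fun k => ∑ j, D (v k) (v k) (Y k j) :=
  (Sm.sum Finset.univ fun s _ => h s).mono (fun _ => Finset.sum_nonneg fun _ _ => D_nonneg _ _ _)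
    fun _ => le_of_eq Finset.sum_comm

theorem exists_om {S : Type} [Fintype S] (hu : AsRep u) {x : S → G}
    {VV : ∀ k, S → Mat (ι k) (ι k)} (hV : ∀ k s, Ctr (VV k s))
    (h : ∀ s, Ap (fun k => u k (x s)) fun k => VV k s) {g : G} (hg : g ∈ closure (range x)) :
    ∃ om : ∀ k, Mat (ι k) (ι k), (∀ k, Ctr (om k)) ∧
      (∀ k, ∀ b ∈ Com (VV k), b * om k = om k * b) ∧ Ap (fun k => u k g) om := by
  induction hg using closure_induction with
  | mem g hg =>
    obtain ⟨s, rfl⟩ := hg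
    exact ⟨fun k => VV k s, fun k => hV k s, fun k b hb => (hb s).1.symm, h s⟩
  | one => exact ⟨fun _ => 1, fun _ => ctr_one, fun k b _ => by simp, hu.one⟩
  | mul a b _ _ ha hb =>
    obtain ⟨p, p1, p2, p3⟩ := ha
    obtain ⟨q, q1, q2, q3⟩ := hb
    refine ⟨fun k => p k * q k, fun k => (p1 k).mul (q1 k), fun k c hc => ?_,
      (hu.mul a b).trans (p3.mul q3 (hu.ctr a) q1)⟩
    rw [← Matrix.mul_assoc, p2 k c hc, Matrix.mul_assoc, q2 k c hc, Matrix.mul_assoc]
  | inv a _ ha =>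
    obtain ⟨p, p1, p2, p3⟩ := ha
    refine ⟨fun k => (p k)ᴴ, fun k => (p1 k).adj, fun k c hc => ?_, (hu.inv a).trans p3.adj⟩
    simpa using (congrArg conjTranspose (p2 k _ (adj_mem_Com hc))).symm

theorem ap_conj (hu : AsRep u) (t a : G) :
    Ap (fun k => u k (t * a * t⁻¹)) fun k => u k t * u k a * (u k t)ᴴ :=
  (hu.mul _ _).trans ((hu.mul t a).mul (hu.inv t) (hu.ctr _) fun k => (hu.ctr t k).adj)

theorem Sm.of_mul {f g : ℕ → ℝ} {c : ℝ} (hc : 0 < c) (hg : Sm ι g) (h0 : ∀ k, 0 ≤ f k)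
    (h : ∀ k, c * f k ≤ g k) : Sm ι f :=
  (hg.cmul c⁻¹).mono h0 fun k => by rw [le_inv_mul_iff₀ hc]; exact h k

theorem err_small {S : Type} [Fintype S] (hu : AsRep u) {x : S → G}
    {VV : ∀ k, S → Mat (ι k) (ι k)} (hV : ∀ k s, Ctr (VV k s))
    (h : ∀ s, Ap (fun k => u k (x s)) fun k => VV k s) {c : ℝ} (hc : 0 < c)
    (hG : ∀ k, GapC (VV k) c) {F : ∀ k, Fr (ι k)} (hF : ∀ k, (F k).OK (VV k)) {t : G}
    (ht : ∀ s, t * x s * t⁻¹ ∈ closure (range x)) :
    Sm ι fun k => (F k).err (VV k) (u k t)ᴴ := by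
  choose om _ o2 o3 using fun s => exists_om hu hV h (ht s)
  have e : ∀ s, Ap (fun k => u k t * VV k s * (u k t)ᴴ) (om s) := fun s =>
    (((h s).symm.mul_left (hu.ctr t)).mul_right fun k => (hu.ctr t k).adj).trans
      ((ap_conj hu t (x s)).symm.trans (o3 s))
  refine Sm.of_mul hc ((Sm.sum Finset.univ fun s _ => e s).cmul 8)
    (fun k => Finset.sum_nonneg fun _ _ => sq_nonneg _) fun k => ?_
  exact err_le (hF k) hc.le (hG k) (hu.uni k t) (fun s => om s k) fun s => o2 s k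

theorem finish {S : Type} [Fintype S] (hu : AsRep u) {x : S → G}
    {VV : ∀ k, S → Mat (ι k) (ι k)} (hV : ∀ k s, Ctr (VV k s))
    (hx : ∀ s, Ap (fun k => u k (x s)) fun k => VV k s) {c : ℝ} (hc : 0 < c)
    (hG : ∀ k, GapC (VV k) c) {t0 a g : G} (ha : ∀ s, Commute a (x s))
    (hg : g ∈ closure (range x)) {e : ℕ → ℝ} (e2 : Sm ι e)
    (T : ∀ k, ∀ v : Mat (ι k) (ι k), Ctr v → (∀ x ∈ Com (VV k), x * v = v * x) →
      ∃ vb : Mat (ι k) (ι k), Ctr vb ∧
        (∀ x ∈ Com (VV k), u k t0 * x * (u k t0)ᴴ * vb = vb * (u k t0 * x * (u k t0)ᴴ)) ∧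
        ‖v - vb‖ ^ 2 ≤ 4 * e k) : Ap (fun k => u k ⁅t0 * a * t0⁻¹, g⁆) fun _ => 1 := by
  have ca : ∀ s, Ap (fun k => VV k s * u k a) fun k => u k a * VV k s := fun s => by
    have h0 := hx s
    have h1 := hu.mul (x s) a
    rw [← (ha s).eq] at h1
    exact (h0.symm.mul_right (hu.ctr a)).trans (h1.symm.trans
      ((hu.mul a (x s)).trans (h0.mul_left (hu.ctr a))))
  have ab : Ap (fun k => u k a) fun k => EA (VV k) (u k a) := by
    refine Sm.of_mul hc ((Sm.sum Finset.univ fun s _ => ca s).cmul 2) (fun k => sq_nonneg _)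
      fun k => ((hG k).le hc.le _).trans (le_of_eq ?_)
    have e1 : D (VV k) (VV k) (u k a)ᴴ = D (VV k) (VV k) (u k a) :=
      Finset.sum_congr rfl fun s _ => by
        rw [norm_sub_rev, norm_comm_adj (hu.uni k a) (hu.uni k a), norm_sub_rev]
    rw [D2, e1, two_mul, D]
  obtain ⟨v, v1, v2, v3⟩ := exists_om hu hV hx hg
  choose vb w1 w2 w3 using fun k => T k (v k) (v1 k) (v2 k)
  have vv : Ap v vb := (e2.cmul 4).mono (fun k => sq_nonneg _) w3
  have cX : ∀ k, Ctr (u k t0 * u k a * (u k t0)ᴴ) := fun k =>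
    ((hu.ctr t0 k).mul (hu.ctr a k)).mul (hu.ctr t0 k).adj
  have XB := (ab.mul_left (hu.ctr t0)).mul_right fun k => (hu.ctr t0 k).adj
  have Xv : Ap (fun k => u k t0 * u k a * (u k t0)ᴴ * v k)
      fun k => v k * (u k t0 * u k a * (u k t0)ᴴ) :=
    (vv.mul_left cX).trans ((XB.mul_right w1).trans
      ((Ap.of_eq fun k => w2 k _ (EA_mem _ _)).trans
        ((XB.symm.mul_left w1).trans (vv.symm.mul_right cX))))
  have pX := ap_conj hu t0 a
  set p := t0 * a * t0⁻¹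
  have pg : Ap (fun k => u k (p * g)) fun k => u k (g * p) :=
    (hu.mul p g).trans ((pX.mul v3 (hu.ctr p) v1).trans
      (Xv.trans ((v3.mul pX (hu.ctr g) cX).symm.trans (hu.mul g p).symm)))
  have e : ⁅p, g⁆ = p * g * (g * p)⁻¹ := by rw [commutatorElement_def]; group
  rw [e]
  exact (hu.mul _ _).trans ((pg.mul (hu.inv _) (hu.ctr _) fun k => (hu.ctr _ k).adj).trans
    (Ap.of_eq fun k => (hu.uni k _).2))

end CoreP

open CoreP

theorem core (hF : S_Fr) (hT : S_Two) (hL : S_Loc) (hK : S_Kill) : S_Core := by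
  intro H _ x y t0 t1 a g C ι _ _ u VV c c' d h hu hc hc' hV hG hx hh hd
  choose F hF1 using fun k => (hF (ι k) (Fin 7) (VV k)).1
  have hpos := fun k => (hF (ι k) (Fin 7) (VV k)).2
  have K := fun k => hK (ι k) (Fin 7) _ (d k) c' (h k) hc' (hd k)
  -- the pieces
  let q : ∀ k, (d k).J → Mat (ι k) (ι k) := fun k j => (d k).q j
  let b : ∀ k, (d k).J → Mat (ι k) (ι k) := fun k j => EA (VV k) (q k j)
  have q0 : ∀ k j, 0 ≤ q k j := fun k => (K k).1.1
  have qh : ∀ k j, (q k j)ᴴ = q k j := fun k j => herm_of_nonneg (q0 k j)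
  have q2 : ∀ k, ∑ j, q k j * q k j ≤ 1 := fun k => sq_sum_le (q0 k) (K k).1.2.1
  have b0 : ∀ k j, 0 ≤ b k j := fun k j => hpos k _ (q0 k j)
  have bh : ∀ k j, (b k j)ᴴ = b k j := fun k j => herm_of_nonneg (b0 k j)
  have bm : ∀ k j, b k j ∈ Com (VV k) := fun k j => EA_mem _ _
  have b1 : ∀ k, ∑ j, b k j ≤ 1 := fun k => by
    have := hpos k _ (sub_nonneg.2 (K k).1.2.1)
    rwa [EA_sub, EA_of_mem (one_mem_Com _), EA_sum, sub_nonneg] at this
  have b2 : ∀ k, ∑ j, b k j * b k j ≤ 1 := fun k => sq_sum_le (b0 k) (b1 k)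
  have qy : ∀ g ∈ closure (range y), Cm q fun k => u k g := fun g hg =>
    Cm.closure qh q2 hu (by
      rintro _ ⟨s, rfl⟩
      exact (hh.cmul 2).mono (fun k => by positivity) fun k =>
        (Finset.sum_le_sum fun j _ => norm_sq_le_D (fun s => u k (y s)) (fun s => u k (y s)) _ s).trans
          (K k).1.2.2.1) hg
  have qb : Sm ι fun k => ∑ j, ‖q k j - b k j‖ ^ 2 := by
    refine Sm.of_mul hc ((Cm.sumD fun s => (qy _ (C.xy s)).congr qh q2 (hx s)).cmul 2)
      (fun k => by positivity) fun k => ?_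
    rw [Finset.mul_sum, Finset.mul_sum]
    exact Finset.sum_le_sum fun j _ => ((hG k).le hc.le _).trans (D2_herm _ (qh k j)).le
  have bT : ∀ g ∈ closure (range y), Cm b fun k => u k g := fun g hg => by
    refine ((Sm.cmul (qy g hg) 2).add (qb.cmul 8)).mono (fun k => by positivity) fun k => ?_
    rw [Finset.mul_sum, Finset.mul_sum, ← Finset.sum_add_distrib]
    refine Finset.sum_le_sum fun j _ => ?_
    have e : u k g * b k j - b k j * u k g = (u k g * q k j - q k j * u k g) -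
        (u k g * (q k j - b k j) - (q k j - b k j) * u k g) := by
      simp only [Matrix.mul_sub, Matrix.sub_mul]; abel
    have h1 := pow_le_pow_left₀ (norm_nonneg _)
      (norm_comm_le (hu.ctr g k) (hu.ctr g k) (q k j - b k j)) 2
    rw [e]
    refine (norm_sub_sq_le _ _).trans ?_
    linarith [mul_pow 2 ‖q k j - b k j‖ 2]
  have bn : ∀ k, Fintype.card (ι k) - ∑ j, ‖b k j‖ ^ 2 ≤
      2 * h k + ∑ j, ‖q k j - b k j‖ ^ 2 := fun k => by
    have e : ∑ j, ‖b k j‖ ^ 2 = ∑ j, ‖q k j‖ ^ 2 - ∑ j, ‖q k j - b k j‖ ^ 2 := by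
      rw [← Finset.sum_sub_distrib]
      exact Finset.sum_congr rfl fun j _ => EA_norm _ _
    linarith [(K k).1.2.2.2]
  -- the scales
  choose M M0 M1 using fun k j => exists_scale (hF1 k) _ (herm_sq_nonneg (bh k j))
  let Y : ∀ k, (d k).J → Mat (ι k) (ι k) := fun k j => (F k).ps (M k j) * b k j
  have pc : ∀ k j, (F k).ps (M k j) * b k j = b k j * (F k).ps (M k j) := fun k j =>
    ps_comm (hF1 k) _ (bm k j)
  have Yh : ∀ k j, (Y k j)ᴴ = Y k j := fun k j => by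
    rw [conjTranspose_mul, bh, ps_herm (hF1 k), ← pc]
  have Y2 : ∀ k, ∑ j, Y k j * Y k j ≤ 1 := fun k => by
    refine (Finset.sum_le_sum fun j _ => ?_).trans (b2 k)
    have h1 : (F k).ps (M k j) * (F k).ps (M k j) ≤ 1 :=
      (ps_sq (hF1 k) (M0 k j)).trans (by
        simpa using smul_le_smul_of_le (c := 1 / 4) (d := 1) (by norm_num)
          (one_nonneg (n := ι k)))
    have h2 := conj_le h1 (b k j)
    rw [bh, Matrix.mul_one] at h2
    refine le_of_eq_of_le ?_ h2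
    show (F k).ps (M k j) * b k j * ((F k).ps (M k j) * b k j) = _
    conv_lhs => arg 1; rw [pc k j]
    simp only [Matrix.mul_assoc]
  have e0 := err_small hu hV hx hc hG hF1 C.c0
  have e1 := err_small hu hV hx hc hG hF1 C.c1
  have L := fun (t : H) k => hL (ι k) (Fin 7) (d k).J (VV k) (F k) (u k t) (b k) (M k) _ _ _ _
    (hF1 k) (hu.uni k t) (bm k) (bh k) (b2 k) (M0 k)
    (hT (ι k) (Fin 7) (VV k) (F k) (u k t) (hF1 k) (hu.uni k t)).1 rfl rfl rfl
  have Yt : ∀ t ∈ closure (range y), (Sm ι fun k => (F k).err (VV k) (u k t)ᴴ) →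
      Cm Y fun k => u k t := fun t ht e =>
    ((((e.cmul 2).add (Sm.sqrt (bT t ht))).cmul 2).add (Sm.cmul (bT t ht) (1 / 2))).mono
      (fun k => by positivity) fun k => by linarith [(L t k).1]
  have Yy : ∀ s, Cm Y fun k => u k (y s) := fun s =>
    Cm.closure Yh Y2 hu (by
      rintro g (rfl | rfl | ⟨s, rfl⟩)
      · exact Yt _ C.t0y e0
      · exact Yt _ C.t1y e1
      · exact (Cm.of_comm fun k j =>
          (mul_mem_Com (ps_mem (hF1 k) _) (bm k j) s).1).congr Yh Y2 (Ap.symm (hx s))) (C.yx s)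
  have Z : Sm ι fun k => ∑ j, ‖Y k j‖ ^ 2 :=
    (((qb.cmul 300).add (hh.cmul 12)).add ((hh.add (Cm.sumD Yy)).cmul (72 / c'))).mono
      (fun k => by positivity) fun k => (K k).2 (b k) _ (b0 k) (b1 k)
        (fun j => ps_herm (hF1 k) _) (fun j => ps_sq (hF1 k) (M0 k j)) (pc k) (M1 k)
  have T := fun k => hT (ι k) (Fin 7) (VV k) (F k) (u k t0) (hF1 k) (hu.uni k t0)
  have e2 : Sm ι fun k => (F k).err (VV k) (u k t0) :=
    (e0.add ((((hh.cmul 2).add qb).add (Z.sqrt.cmul 4)).add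
      ((((((e0.cmul 2).add (Sm.sqrt (bT _ C.t0y))).cmul 2).add (Z.cmul 2)).sqrt).cmul 4))).mono
      (fun k => Finset.sum_nonneg fun _ _ => sq_nonneg _) fun k => by
        linarith [(T k).2.1, (L t0 k).2, bn k]
  exact finish hu hV hx hc hG C.ax C.cx e2 fun k => (T k).2.2

end Pool.Agent.P.MP_7f9919_an.NH
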