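import Pool.Agent.P.MP_7f9919_an.G73.Sm

set_option autoImplicit false
set_option linter.unusedSectionVars false

namespace Pool.Agent.P.MP_7f9919_an.NH

open Matrix Filter Asymptotics
open scoped MatrixOrder ComplexOrder

namespace FrameP

variable {n S : Type} [Fintype n] [DecidableEq n] [Fintype S]

theorem EA_unique {a : S → Mat n n} {y b : Mat n n} (hb : b ∈ Com a)
    (h : ∀ x ∈ Com a, trace (xᴴ * (y - b)) = 0) : EA a y = b := by
  have hd := (Com a).sub_mem (EA_mem a y) hb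
  have h1 : ‖EA a y - b‖ ^ 2 = 0 := by
    have : EA a y - b = (y - b) - (y - EA a y) := by abel
    rw [norm_sq_eq_tr]
    nth_rewrite 2 [this]
    rw [Matrix.mul_sub, tr, trace_sub, h _ hd, EA_orth y hd]; simp
  exact sub_eq_zero.mp (by simpa using h1)

theorem EA_mul_left {a : S → Mat n n} {z : Mat n n} (hz : z ∈ Com a) (y : Mat n n) :
    EA a (z * y) = z * EA a y :=
  EA_unique (mul_mem_Com hz (EA_mem a y)) fun x hx => by
    have := EA_orth y (mul_mem_Com (adj_mem_Com hz) hx)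
    rwa [conjTranspose_mul, conjTranspose_conjTranspose, Matrix.mul_assoc, Matrix.mul_sub z] at this

theorem EA_adj (a : S → Mat n n) (y : Mat n n) : EA a yᴴ = (EA a y)ᴴ :=
  EA_unique (adj_mem_Com (EA_mem a y)) fun x hx => by
    have := congrArg star (EA_orth y (adj_mem_Com hx))
    rwa [← trace_conjTranspose, conjTranspose_mul, conjTranspose_conjTranspose, trace_mul_comm,
      conjTranspose_sub, star_zero] at this

theorem trace_EA {a : S → Mat n n} {x : Mat n n} (hx : x ∈ Com a) (y : Mat n n) :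
    trace (xᴴ * EA a y) = trace (xᴴ * y) := by
  have := EA_orth y hx
  rw [Matrix.mul_sub, trace_sub, sub_eq_zero] at this
  exact this.symm

theorem EA_nonneg (a : S → Mat n n) {y : Mat n n} (hy : 0 ≤ y) : 0 ≤ EA a y := by
  have hb : (EA a y)ᴴ = EA a y := by rw [← EA_adj, herm_of_nonneg hy]
  have hm := EA_mem a y
  have ht := fun x (hx : x ∈ Com a) => trace_EA hx y
  generalize EA a y = b at *
  have hq := isProj_Rle 0 b
  have hqm : Rle 0 b ∈ Com a := by rw [Rle_eq hb]; exact fc_mem_Com hm hb _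
  have h1 : 0 ≤ tr (Rle 0 b * b) := by
    have := ht _ hqm
    rw [hq.1] at this
    rw [tr, this]; exact tr_mul_nonneg hq.nonneg hy
  have h2 : 0 ≤ -(Rle 0 b * b) := by
    rw [Rle_eq hb, ← fc_mul_id hb, ← neg_one_smul ℝ, ← fc_smul]
    refine fc_nonneg fun x _ => ?_
    by_cases hx : 0 < x
    · simp [gtI_of_lt hx]
    · simpa [gtI_of_le (not_lt.mp hx)] using not_lt.mp hx
  have h3 : Rle 0 b * b = 0 := by
    have h4 := tr_nonneg h2
    exact neg_eq_zero.mp (eq_zero_of_tr_eq_zero h2 (by rw [tr_neg] at h4 ⊢; linarith))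
  have h4 : b = fc (fun x => gtI 0 x * x) b := by
    rw [Rle, Matrix.sub_mul, Matrix.one_mul, sub_eq_zero] at h3
    rw [fc_mul_id hb]; exact h3
  rw [h4]
  refine fc_nonneg fun x _ => ?_
  by_cases hx : 0 < x
  · simpa [gtI_of_lt hx] using hx.le
  · simp [gtI_of_le (not_lt.mp hx)]

theorem exists_onb (a : S → Mat n n) :
    ∃ (r : ℕ) (o : Fin r → Mat n n), (∀ i, o i ∈ Com a) ∧
      (∀ x ∈ Com a, x = ∑ i, trace ((o i)ᴴ * x) • o i) ∧
      ∀ y, ‖EA a y‖ ^ 2 = ∑ i, ‖trace ((o i)ᴴ * y)‖ ^ 2 := by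
  let b := stdOrthonormalBasis ℂ (Com a)
  refine ⟨_, fun i => (b i : Mat n n), fun i => (b i).2, fun x hx => ?_, fun y => ?_⟩
  · have := congrArg Subtype.val (b.sum_repr' ⟨x, hx⟩)
    rw [Submodule.coe_sum] at this
    exact this.symm
  · have := b.sum_sq_norm_inner_right ⟨EA a y, EA_mem a y⟩
    rw [Submodule.coe_norm] at this
    refine this.symm.trans (Finset.sum_congr rfl fun i _ => ?_)
    rw [← trace_EA (b i).2 y]; rfl

theorem fc_sum {ι : Type} (s : Finset ι) (f : ι → ℝ → ℝ) (A : Mat n n) :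
    fc (fun x => ∑ i ∈ s, f i x) A = ∑ i ∈ s, fc (f i) A := by
  classical
  induction s using Finset.induction_on with
  | empty => simpa using fc_zero A
  | insert i s hi ih => simp only [Finset.sum_insert hi, fc_add, ih]

section onb
variable {a : S → Mat n n} {r : ℕ} {o : Fin r → Mat n n} (ho : ∀ i, o i ∈ Com a)
  (hex : ∀ x ∈ Com a, x = ∑ i, trace ((o i)ᴴ * x) • o i)
include ho hex

theorem comm (y : Mat n n) {x : Mat n n} (hx : x ∈ Com a) :
    x * ∑ i, o i * y * (o i)ᴴ = (∑ i, o i * y * (o i)ᴴ) * x := by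
  have h1 : ∀ i, x * o i = ∑ j, trace ((o j)ᴴ * (x * o i)) • o j := fun i =>
    hex _ (mul_mem_Com hx (ho i))
  have h2 : ∀ j, (o j)ᴴ * x = ∑ i, trace ((o j)ᴴ * (x * o i)) • (o i)ᴴ := fun j => by
    have := congrArg conjTranspose (hex _ (mul_mem_Com (adj_mem_Com hx) (ho j)))
    rw [conjTranspose_mul, conjTranspose_conjTranspose, conjTranspose_sum] at this
    refine this.trans (Finset.sum_congr rfl fun i _ => ?_)
    rw [conjTranspose_smul, ← trace_conjTranspose]
    simp only [conjTranspose_mul, conjTranspose_conjTranspose, Matrix.mul_assoc]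
  calc x * ∑ i, o i * y * (o i)ᴴ = ∑ i, (x * o i) * y * (o i)ᴴ := by
        simp only [Matrix.mul_sum, Matrix.mul_assoc]
    _ = ∑ i, ∑ j, trace ((o j)ᴴ * (x * o i)) • (o j * y * (o i)ᴴ) := by
        refine Finset.sum_congr rfl fun i _ => ?_
        conv_lhs => rw [h1 i]
        simp only [Matrix.sum_mul, Matrix.smul_mul]
    _ = ∑ j, o j * y * ((o j)ᴴ * x) := by
        rw [Finset.sum_comm]
        refine Finset.sum_congr rfl fun j _ => ?_
        conv_rhs => rw [h2 j]
        simp only [Matrix.mul_sum, Matrix.mul_smul]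
    _ = _ := by simp only [Matrix.sum_mul, Matrix.mul_assoc]

theorem flip : ∑ i, (o i)ᴴ * o i = ∑ i, o i * (o i)ᴴ := by
  have h1 : ∀ i, (o i)ᴴ = ∑ j, trace ((o j)ᴴ * (o i)ᴴ) • o j := fun i => hex _ (adj_mem_Com (ho i))
  calc ∑ i, (o i)ᴴ * o i = ∑ i, ∑ j, trace ((o j)ᴴ * (o i)ᴴ) • (o j * o i) := by
        refine Finset.sum_congr rfl fun i _ => ?_
        conv_lhs => rw [h1 i]
        simp only [Matrix.sum_mul, Matrix.smul_mul]
    _ = _ := by
        rw [Finset.sum_comm]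
        refine Finset.sum_congr rfl fun j _ => ?_
        conv_rhs => rw [h1 j]
        simp only [Matrix.mul_sum, Matrix.mul_smul]
        exact Finset.sum_congr rfl fun i _ => by rw [trace_mul_comm]

theorem supp : fc (gtI 0) (∑ i, o i * (o i)ᴴ) = 1 := by
  have hf0 : 0 ≤ ∑ i, o i * (o i)ᴴ := Finset.sum_nonneg fun i _ => self_mul_adj_nonneg _
  have hf := herm_of_nonneg hf0
  have hp := isProj_Rle 0 (∑ i, o i * (o i)ᴴ)
  have h1 : (∑ i, o i * (o i)ᴴ) * Rle 0 (∑ i, o i * (o i)ᴴ) = 0 := by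
    rw [Rle_eq hf, ← fc_id_mul hf, ← fc_zero (∑ i, o i * (o i)ᴴ)]
    refine fc_congr fun x hx => ?_
    rcases (spec_nonneg hf0 hx).eq_or_lt with h | h
    · simp [← h]
    · simp [gtI_of_lt h]
  have h2 : Rle 0 (∑ i, o i * (o i)ᴴ) = 0 := by
    generalize Rle 0 (∑ i, o i * (o i)ᴴ) = p at *
    have h3 : ∑ i, ‖(o i)ᴴ * p‖ ^ 2 = 0 := by
      simp only [hp.norm_mul_sq, conjTranspose_conjTranspose]
      rw [← tr_sum, ← Matrix.sum_mul, h1, tr_zero]
    have h4 : ∀ i, (o i)ᴴ * p = 0 := fun i => by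
      simpa using (Finset.sum_eq_zero_iff_of_nonneg fun i _ => sq_nonneg _).mp h3 i
        (Finset.mem_univ i)
    have h5 := congrArg conjTranspose (hex 1 (one_mem_Com a))
    rw [conjTranspose_one, conjTranspose_sum] at h5
    rw [← Matrix.one_mul p, h5, Matrix.sum_mul]
    exact Finset.sum_eq_zero fun i _ => by rw [conjTranspose_smul, Matrix.smul_mul, h4, smul_zero]
  exact (sub_eq_zero.mp h2).symm

end onb

theorem sum_lab {Λ ι M : Type} [Fintype Λ] [DecidableEq Λ] [Fintype ι] [AddCommMonoid M]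
    (g : Λ × ι → M) (l : Λ) : ∑ p with p.1 = l, g p = ∑ i, g (l, i) := by
  rw [Finset.sum_filter, Fintype.sum_prod_type, Finset.sum_comm]
  simp

theorem exists_fr (a : S → Mat n n) : ∃ F : Fr n, F.OK a := by
  classical
  obtain ⟨r, o, ho, hex, hpar⟩ := exists_onb a
  have hcomm := fun y x (hx : x ∈ Com a) => comm ho hex y hx
  have hflip := flip ho hex
  have hsupp := supp ho hex
  obtain ⟨f, hfe⟩ : ∃ f, f = ∑ i, o i * (o i)ᴴ := ⟨_, rfl⟩
  rw [← hfe] at hflip hsupp
  have hf0 : 0 ≤ f := hfe ▸ Finset.sum_nonneg fun i _ => self_mul_adj_nonneg _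
  have hf := herm_of_nonneg hf0
  have hfm : f ∈ Com a :=
    hfe ▸ Submodule.sum_mem _ fun i _ => mul_mem_Com (ho i) (adj_mem_Com (ho i))
  have hfc : ∀ x ∈ Com a, f * x = x * f := fun x hx => by
    have := hcomm 1 x hx
    simp only [Matrix.mul_one] at this
    rw [hfe, this]
  let L : Finset ℝ := (Finset.univ.image (eig f)).filter (0 < ·)
  let z : L → Mat n n := fun l => fc (fun x => if x = l.1 then 1 else 0) f
  have hw : ∀ l : L, 0 < l.1 := fun l => (Finset.mem_filter.mp l.2).2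
  have hzp : ∀ l, IsProj (z l) := fun l => isProj_fc fun x => by split_ifs <;> simp
  have hzc : ∀ l, ∀ x ∈ Com a, z l * x = x * z l := fun l x hx => fc_commute hf (hfc x hx) _
  have hzm : ∀ l, z l ∈ Com a := fun l => fc_mem_Com hfm hf _
  have hzf : ∀ l, z l * f = l.1 • z l := fun l => by
    simp only [z]
    rw [← fc_mul_id hf, ← fc_smul]
    exact fc_congr fun x _ => by split_ifs with h <;> simp [h]
  have hzs : ∑ l, z l = 1 := by
    simp only [z]
    rw [← fc_sum, ← hsupp]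
    refine fc_congr fun x hx => ?_
    rw [Finset.sum_coe_sort L fun l => if x = l then (1 : ℝ) else 0, Finset.sum_ite_eq]
    obtain ⟨i, rfl⟩ := exists_eig hf hx
    simp [L, gtI]
  have hc : ∀ l : L, (Real.sqrt l.1)⁻¹ * (Real.sqrt l.1)⁻¹ * l.1 = 1 := fun l => by
    rw [← mul_inv, Real.mul_self_sqrt (hw l).le, inv_mul_cancel₀ (hw l).ne']
  refine ⟨Fr.mk L (L × Fin r) z (fun l => l.1) Prod.fst
    (fun p => (Real.sqrt p.1.1)⁻¹ • (z p.1 * o p.2)), hw, hzp, hzs, fun l l' h => ?_, hzm, hzc,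
    fun p => real_smul_mem_Com _ (mul_mem_Com (hzm _) (ho _)), fun p => ?_, fun l => ?_,
    fun l => ?_, fun y => ?_, fun y x hx => ?_⟩
  · simp only [z]
    rw [← fc_mul, ← fc_zero f]
    refine fc_congr fun x _ => ?_
    by_cases h1 : x = l.1
    · rw [if_neg (c := x = l'.1) fun h2 => h (Subtype.ext (h1.symm.trans h2)), mul_zero]
    · rw [if_neg h1, zero_mul]
  · simp only [Matrix.mul_smul, ← Matrix.mul_assoc, (hzp _).2]
  · refine (sum_lab _ l).trans ?_
    have : ∀ i, ((Real.sqrt l.1)⁻¹ • (z l * o i)) * ((Real.sqrt l.1)⁻¹ • (z l * o i))ᴴ =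
        ((Real.sqrt l.1)⁻¹ * (Real.sqrt l.1)⁻¹) • (z l * (o i * (o i)ᴴ) * z l) := fun i => by
      simp only [conjTranspose_smul, star_trivial, conjTranspose_mul, (hzp l).1, Matrix.smul_mul,
        Matrix.mul_smul, smul_smul, Matrix.mul_assoc]
    simp only [this]
    rw [← Finset.smul_sum, ← Matrix.sum_mul, ← Matrix.mul_sum, ← hfe, hzf, Matrix.smul_mul,
      (hzp l).2, smul_smul, hc, one_smul]
  · refine (sum_lab _ l).trans ?_
    have : ∀ i, ((Real.sqrt l.1)⁻¹ • (z l * o i))ᴴ * ((Real.sqrt l.1)⁻¹ • (z l * o i)) =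
        ((Real.sqrt l.1)⁻¹ * (Real.sqrt l.1)⁻¹) • (z l * ((o i)ᴴ * o i)) := fun i => by
      simp only [conjTranspose_smul, star_trivial, conjTranspose_mul, (hzp l).1, Matrix.smul_mul,
        Matrix.mul_smul, smul_smul]
      rw [Matrix.mul_assoc, ← Matrix.mul_assoc (z l), (hzp l).2, ← Matrix.mul_assoc,
        ← hzc l _ (adj_mem_Com (ho i)), Matrix.mul_assoc]
    simp only [this]
    rw [← Finset.smul_sum, ← Matrix.mul_sum, hflip, hzf, smul_smul, hc, one_smul]
  · rw [← sum_norm_proj_mul_sq Finset.univ (fun l _ => hzp l) hzs, Fintype.sum_prod_type]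
    refine Finset.sum_congr rfl fun l _ => ?_
    rw [← EA_mul_left (hzm l), hpar]
    refine Finset.sum_congr rfl fun i _ => ?_
    simp only [conjTranspose_smul, star_trivial, conjTranspose_mul, (hzp l).1, Matrix.smul_mul,
      trace_smul, norm_smul, mul_pow, Real.norm_eq_abs, sq_abs, Matrix.mul_assoc]
    generalize ‖trace ((o i)ᴴ * (z l * y))‖ ^ 2 = T
    linear_combination (-T) * hc l
  · have : ∑ p : L × Fin r, ((Real.sqrt p.1.1)⁻¹ • (z p.1 * o p.2)) * y *
        ((Real.sqrt p.1.1)⁻¹ • (z p.1 * o p.2))ᴴ = ∑ l : L,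
          ((Real.sqrt l.1)⁻¹ * (Real.sqrt l.1)⁻¹) • (z l * (∑ i, o i * y * (o i)ᴴ) * z l) := by
      rw [Fintype.sum_prod_type]
      refine Finset.sum_congr rfl fun l _ => ?_
      simp only [conjTranspose_smul, star_trivial, conjTranspose_mul, (hzp l).1, Matrix.smul_mul,
        Matrix.mul_smul, smul_smul, Matrix.mul_assoc, Matrix.mul_sum, Matrix.sum_mul,
        Finset.smul_sum]
    change x * ∑ p : L × Fin r, _ = (∑ p : L × Fin r, _) * x
    rw [this, Matrix.mul_sum, Matrix.sum_mul]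
    refine Finset.sum_congr rfl fun l _ => ?_
    rw [Matrix.mul_smul, Matrix.smul_mul, ← Matrix.mul_assoc, ← Matrix.mul_assoc, ← hzc l x hx,
      Matrix.mul_assoc (z l), hcomm y x hx, Matrix.mul_assoc _ (z l), hzc l x hx]
    simp only [Matrix.mul_assoc]

end FrameP

theorem fr : S_Fr := fun _ _ _ _ _ VV => ⟨FrameP.exists_fr VV, fun _ hy => FrameP.EA_nonneg VV hy⟩

end Pool.Agent.P.MP_7f9919_an.NH
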