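import Pool.Agent.P.MP_7f9919_an.G73.Sm

/-! Section 5.5 of the plan. -/

set_option autoImplicit false
set_option linter.unusedVariables false
set_option linter.unusedSectionVars false

namespace Pool.Agent.P.MP_7f9919_an.NH

open Matrix Filter Asymptotics
open scoped MatrixOrder ComplexOrder

namespace KillP

variable {k n S J : Type} [Fintype k] [Fintype n] [Fintype S] [Fintype J]
variable [DecidableEq k] [DecidableEq n]

theorem half_mul {ψ : Mat n n} (h1 : ψᴴ = ψ) (h2 : ψ * ψ ≤ (1 / 4 : ℝ) • (1 : Mat n n))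
    (y : Mat n k) : ‖ψ * y‖ ≤ ‖y‖ / 2 := by
  have h := norm_mul_sq_le (x := ψ) (c := 1 / 4) (by rw [h1]; exact h2) y
  have h0 := norm_nonneg y
  have h3 := norm_nonneg (ψ * y)
  nlinarith

theorem mul_half {ψ : Mat n n} (h1 : ψᴴ = ψ) (h2 : ψ * ψ ≤ (1 / 4 : ℝ) • (1 : Mat n n))
    (y : Mat k n) : ‖y * ψ‖ ≤ ‖y‖ / 2 := by
  have h := norm_mul_sq_le' (x := ψ) (c := 1 / 4) (by rw [h1]; exact h2) y
  have h0 := norm_nonneg y
  have h3 := norm_nonneg (y * ψ)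
  nlinarith

/-- the commutator of a compressed projection -/
theorem comm_q {V : Mat n k} (hV : Ctr V) {e : J → Mat k k} (he : ∀ j, IsProj (e j))
    (hs : ∑ j, e j = 1) (u : Mat n n) (w : Mat k k) (hw : ∀ j, w * e j = e j * w) :
    ∑ j, ‖u * (V * e j * Vᴴ) - V * e j * Vᴴ * u‖ ^ 2 ≤
      2 * ‖u * V - V * w‖ ^ 2 + 2 * ‖w * Vᴴ - Vᴴ * u‖ ^ 2 := by
  rw [← sum_norm_mul_proj_sq Finset.univ (fun j _ => he j) hs (u * V - V * w),
    ← sum_norm_proj_mul_sq Finset.univ (fun j _ => he j) hs (w * Vᴴ - Vᴴ * u),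
    Finset.mul_sum, Finset.mul_sum, ← Finset.sum_add_distrib]
  refine Finset.sum_le_sum fun j _ => ?_
  have e1 : u * (V * e j * Vᴴ) - V * e j * Vᴴ * u =
      (u * V - V * w) * e j * Vᴴ + V * (e j * (w * Vᴴ - Vᴴ * u)) := by
    have : V * w * e j * Vᴴ = V * (e j * (w * Vᴴ)) := by
      rw [Matrix.mul_assoc V w, hw j]; simp only [Matrix.mul_assoc]
    simp only [Matrix.sub_mul, Matrix.mul_sub, this]
    simp only [Matrix.mul_assoc]
    abel
  rw [e1]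
  have h1 := norm_add_sq_le ((u * V - V * w) * e j * Vᴴ) (V * (e j * (w * Vᴴ - Vᴴ * u)))
  have h2 := hV.adj.mul_norm_sq_le ((u * V - V * w) * e j)
  have h3 := hV.norm_mul_sq_le (e j * (w * Vᴴ - Vᴴ * u))
  linarith

theorem q_norm (V : Mat n k) {e : Mat k k} (he : IsProj e) :
    2 * tr (e * (Vᴴ * V)) - tr e ≤ ‖V * e * Vᴴ‖ ^ 2 := by
  have h1 : ‖V * e * Vᴴ‖ ^ 2 = ‖e * (Vᴴ * V) * e‖ ^ 2 := by
    rw [norm_sq_eq_tr, norm_sq_eq_tr]
    simp only [conjTranspose_mul, conjTranspose_conjTranspose, he.1, Matrix.mul_assoc]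
    rw [tr_mul_comm V, tr_mul_comm e (Vᴴ * (V * (e * (e * (Vᴴ * (V * e))))))]
    simp only [Matrix.mul_assoc, he.2]
    rw [← Matrix.mul_assoc e e, he.2, tr_mul_comm e]
    simp only [Matrix.mul_assoc]
  have h2 := norm_sub_sq e (e * (Vᴴ * V) * e)
  have h3 : tr (eᴴ * (e * (Vᴴ * V) * e)) = tr (e * (Vᴴ * V)) := by
    rw [he.1, ← Matrix.mul_assoc, ← Matrix.mul_assoc, he.2, tr_cycle, he.2]
  rw [h3, he.norm_sq] at h2
  have h4 := sq_nonneg ‖e - e * (Vᴴ * V) * e‖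
  linarith

theorem q_sq {V : Mat n k} (hV : Ctr V) {e : J → Mat k k} (he : ∀ j, IsProj (e j))
    (hs : ∑ j, e j = 1) :
    ∑ j, ‖V * e j * Vᴴ - V * e j * Vᴴ * (V * e j * Vᴴ)‖ ^ 2 ≤ Fintype.card k - ‖V‖ ^ 2 := by
  have h0 : (0 : Mat k k) ≤ 1 - Vᴴ * V := sub_nonneg.2 hV.le_one
  have h1 : (1 : Mat k k) - Vᴴ * V ≤ 1 := sub_le_self _ (adj_mul_self_nonneg V)
  have h2 : ‖(1 : Mat k k) - Vᴴ * V‖ ^ 2 ≤ Fintype.card k - ‖V‖ ^ 2 := by
    rw [norm_sq_eq_tr, herm_of_nonneg h0]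
    refine (tr_mono (sq_le_self h0 h1)).trans (le_of_eq ?_)
    rw [tr_sub, ← norm_sq_eq_tr, ← norm_one_sq, isProj_one.norm_sq]
  refine le_trans ?_ h2
  rw [← sum_norm_proj_mul_sq Finset.univ (fun j _ => he j) hs (1 - Vᴴ * V)]
  refine Finset.sum_le_sum fun j _ => ?_
  have e1 : V * e j * Vᴴ - V * e j * Vᴴ * (V * e j * Vᴴ) =
      V * (e j * (1 - Vᴴ * V) * e j * Vᴴ) := by
    simp only [Matrix.sub_mul, Matrix.mul_sub, Matrix.mul_one, (he j).2]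
    simp only [Matrix.mul_assoc]
  rw [e1]
  exact (hV.norm_mul_sq_le _).trans
    ((hV.adj.mul_norm_sq_le _).trans ((he j).ctr.mul_norm_sq_le _))

/-- compression of an almost commuting family -/
theorem comm_y {V : Mat n k} (hV : Ctr V) {Y : J → Mat n n} (hY : ∀ j, (Y j)ᴴ = Y j)
    (hs : ∑ j, Y j * Y j ≤ (1 : ℝ) • (1 : Mat n n)) (u : Mat n n) (w : Mat k k) :
    ∑ j, ‖w * (Vᴴ * Y j * V) - Vᴴ * Y j * V * w‖ ^ 2 ≤
      3 * (‖u * V - V * w‖ ^ 2 + ‖w * Vᴴ - Vᴴ * u‖ ^ 2 + ∑ j, ‖u * Y j - Y j * u‖ ^ 2) := by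
  have h1 := sum_norm_mul_sq_le Finset.univ (a := Y) (c := 1) (by simpa only [hY] using hs)
    (w * Vᴴ - Vᴴ * u)
  have h2 := sum_mul_norm_sq_le Finset.univ (a := Y) (c := 1) (by simpa only [hY] using hs)
    (u * V - V * w)
  have h3 : ∑ j, ‖w * (Vᴴ * Y j * V) - Vᴴ * Y j * V * w‖ ^ 2 ≤
      ∑ j, 3 * (‖(w * Vᴴ - Vᴴ * u) * Y j‖ ^ 2 + ‖u * Y j - Y j * u‖ ^ 2 +
        ‖Y j * (u * V - V * w)‖ ^ 2) := by
    refine Finset.sum_le_sum fun j _ => ?_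
    have e1 : w * (Vᴴ * Y j * V) - Vᴴ * Y j * V * w =
        (w * Vᴴ - Vᴴ * u) * Y j * V + Vᴴ * ((u * Y j - Y j * u) * V) +
          Vᴴ * (Y j * (u * V - V * w)) := by
      simp only [Matrix.sub_mul, Matrix.mul_sub, Matrix.mul_assoc]
      abel
    rw [e1]
    have g0 := norm_add3_sq_le ((w * Vᴴ - Vᴴ * u) * Y j * V) (Vᴴ * ((u * Y j - Y j * u) * V))
      (Vᴴ * (Y j * (u * V - V * w)))
    have g1 := hV.mul_norm_sq_le ((w * Vᴴ - Vᴴ * u) * Y j)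
    have g2 := (hV.adj.norm_mul_sq_le ((u * Y j - Y j * u) * V)).trans (hV.mul_norm_sq_le _)
    have g3 := hV.adj.norm_mul_sq_le (Y j * (u * V - V * w))
    linarith
  rw [← Finset.mul_sum, Finset.sum_add_distrib, Finset.sum_add_distrib] at h3
  linarith

/-- the scalar may be taken in the unit disc -/
theorem small_scalar {q a ψ : Mat n n} (hq : Ctr q) (ha : Ctr a) (h1 : ψᴴ = ψ)
    (h2 : ψ * ψ ≤ (1 / 4 : ℝ) • (1 : Mat n n)) (ζ : ℂ) :
    ∃ ξ : ℂ, ‖ξ‖ ≤ 1 ∧ ‖q * (ψ * a) * q - ξ • q‖ ≤ ‖q * (ψ * a) * q - ζ • q‖ := by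
  by_cases h : ‖ζ‖ ≤ 1
  · exact ⟨ζ, h, le_rfl⟩
  · refine ⟨0, by simp, ?_⟩
    rw [zero_smul, sub_zero]
    have g1 : ‖q * (ψ * a) * q‖ ≤ ‖q‖ / 2 := by
      rw [Matrix.mul_assoc, Matrix.mul_assoc]
      refine (hq.norm_mul_le _).trans ((half_mul h1 h2 _).trans ?_)
      have := ha.norm_mul_le q
      linarith
    have g2 : ‖ζ • q‖ - ‖q * (ψ * a) * q‖ ≤ ‖q * (ψ * a) * q - ζ • q‖ := by
      rw [norm_sub_rev]; exact norm_sub_norm_le _ _
    rw [norm_smul] at g2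
    have g3 := norm_nonneg q
    nlinarith [not_le.1 h]

/-- one index -/
theorem one_index {q a ψ : Mat n n} (hq : Ctr q) (ha0 : 0 ≤ a) (ha1 : a ≤ 1) (h1 : ψᴴ = ψ)
    (h2 : ψ * ψ ≤ (1 / 4 : ℝ) • (1 : Mat n n)) (hc : ψ * a = a * ψ)
    (ht : tr (ψ * (a * a)) = 0) (ζ : ℂ) :
    ‖ψ * a‖ ^ 2 ≤
      3 * (25 * ‖q - a‖ ^ 2 + ‖q - q * q‖ ^ 2 + ‖q * (ψ * a) * q - ζ • q‖ ^ 2) := by
  have ha := ctr_of_nonneg_le_one ha0 ha1
  have hah := herm_of_nonneg ha0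
  obtain ⟨ξ, hξ, hle⟩ := small_scalar hq ha h1 h2 ζ
  have t1 : trace ((ψ * a)ᴴ * a) = 0 := by
    have hh : ((ψ * a)ᴴ * a)ᴴ = (ψ * a)ᴴ * a := by
      simp only [conjTranspose_mul, hah, h1, Matrix.mul_assoc]
    rw [trace_eq_tr_of_herm hh, conjTranspose_mul, hah, h1, ← hc, Matrix.mul_assoc, ht]
    simp
  have t2 : ‖ψ * a‖ ^ 2 ≤ ‖ψ * a - ξ • a‖ ^ 2 := by
    rw [norm_sub_sq, tr, Matrix.mul_smul, trace_smul, t1, smul_zero, Complex.zero_re]
    have := sq_nonneg ‖ξ • a‖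
    linarith
  have e1 : ψ * a - ξ • a = (q * (ψ * a) * q - ξ • q) + ξ • (q - a) - q * (ψ * (a * (q - a))) -
      (q - a) * ψ * a * a - ψ * (a * (a * a - a)) - ψ * (a * a - a) := by
    have : a * ψ * a * a = ψ * (a * (a * a)) := by rw [← hc]; simp only [Matrix.mul_assoc]
    simp only [Matrix.sub_mul, Matrix.mul_sub, smul_sub, this]
    simp only [Matrix.mul_assoc]
    abel
  have e2 : a * a - a = (q - a) - (q - q * q) - q * (q - a) - (q - a) * a := by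
    simp only [Matrix.sub_mul, Matrix.mul_sub]
    abel
  have n2 : ‖a * a - a‖ ≤ 3 * ‖q - a‖ + ‖q - q * q‖ := by
    rw [e2]
    have g1 := norm_sub_le (q - a - (q - q * q) - q * (q - a)) ((q - a) * a)
    have g2 := norm_sub_le (q - a - (q - q * q)) (q * (q - a))
    have g3 := norm_sub_le (q - a) (q - q * q)
    have g4 := hq.norm_mul_le (q - a)
    have g5 := ha.mul_norm_le (q - a)
    linarith
  have b1 : ‖ξ • (q - a)‖ ≤ ‖q - a‖ := by
    rw [norm_smul]; exact mul_le_of_le_one_left (norm_nonneg _) hξ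
  have b2 : ‖q * (ψ * (a * (q - a)))‖ ≤ ‖q - a‖ / 2 := by
    refine (hq.norm_mul_le _).trans ((half_mul h1 h2 _).trans ?_)
    have := ha.norm_mul_le (q - a)
    linarith
  have b3 : ‖(q - a) * ψ * a * a‖ ≤ ‖q - a‖ / 2 :=
    (ha.mul_norm_le _).trans ((ha.mul_norm_le _).trans (mul_half h1 h2 _))
  have b4 : ‖ψ * (a * (a * a - a))‖ ≤ ‖a * a - a‖ / 2 := by
    refine (half_mul h1 h2 _).trans ?_
    have := ha.norm_mul_le (a * a - a)
    linarith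
  have b5 : ‖ψ * (a * a - a)‖ ≤ ‖a * a - a‖ / 2 := half_mul h1 h2 _
  have n1 : ‖ψ * a - ξ • a‖ ≤ 5 * ‖q - a‖ + ‖q - q * q‖ + ‖q * (ψ * a) * q - ζ • q‖ := by
    rw [e1]
    generalize q * (ψ * a) * q - ξ • q = X1 at *
    generalize ξ • (q - a) = X2 at *
    generalize q * (ψ * (a * (q - a))) = X3 at *
    generalize (q - a) * ψ * a * a = X4 at *
    generalize ψ * (a * (a * a - a)) = X5 at *
    generalize ψ * (a * a - a) = X6 at *
    have g1 := norm_sub_le (X1 + X2 - X3 - X4 - X5) X6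
    have g2 := norm_sub_le (X1 + X2 - X3 - X4) X5
    have g3 := norm_sub_le (X1 + X2 - X3) X4
    have g4 := norm_sub_le (X1 + X2) X3
    have g5 := norm_add_le X1 X2
    linarith
  refine t2.trans ((pow_le_pow_left₀ (norm_nonneg _) n1 2).trans ?_)
  generalize ‖q - a‖ = x
  generalize ‖q - q * q‖ = y
  generalize ‖q * (ψ * a) * q - ζ • q‖ = z
  nlinarith [sq_nonneg (5 * x - y), sq_nonneg (5 * x - z), sq_nonneg (y - z)]

end KillP

open KillP in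
theorem kill : S_Kill := by
  intro n S _ _ _ u d c h hc hd
  obtain ⟨⟨-, hgap, he, hs, hcom, hsc⟩, hV, hD, hk, hn⟩ := hd
  have hh : 0 ≤ h := (D2_nonneg _ _ _).trans hD
  have hq0 : ∀ j, 0 ≤ d.q j := fun j => conj_nonneg' (he j).nonneg d.V
  have hqc : ∀ j, Ctr (d.q j) := fun j => (hV.mul (he j).ctr).mul hV.adj
  refine ⟨⟨hq0, ?_, ?_, ?_⟩, ?_⟩
  · simp only [KD.q]
    rw [← Matrix.sum_mul, ← Matrix.mul_sum, hs, Matrix.mul_one]
    exact hV.le_one'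
  · simp only [D, KD.q]
    rw [Finset.sum_comm]
    refine (Finset.sum_le_sum fun s _ =>
      comm_q hV he hs (u s) (d.VV s) fun j => (hcom j s).1).trans ?_
    rw [Finset.sum_add_distrib, ← Finset.mul_sum, ← Finset.mul_sum]
    simp only [D2, D] at hD
    linarith
  · refine le_trans ?_ (Finset.sum_le_sum fun j _ => q_norm d.V (he j))
    rw [Finset.sum_sub_distrib, ← Finset.mul_sum, ← tr_sum, ← tr_sum, ← Matrix.sum_mul, hs,
      Matrix.one_mul, ← norm_sq_eq_tr, ← isProj_one.norm_sq, norm_one_sq]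
    linarith
  intro a ψ ha0 has hψ hψ2 hcm htr
  have ha1 : ∀ j, a j ≤ 1 := fun j =>
    (Finset.single_le_sum (fun i _ => ha0 i) (Finset.mem_univ j)).trans has
  have hah : ∀ j, (a j)ᴴ = a j := fun j => herm_of_nonneg (ha0 j)
  have hY : ∀ j, (ψ j * a j)ᴴ = ψ j * a j := fun j => by
    rw [conjTranspose_mul, hah, hψ, hcm]
  have hYs : ∑ j, ψ j * a j * (ψ j * a j) ≤ (1 : ℝ) • (1 : Mat n n) := by
    rw [one_smul]
    refine le_trans (Finset.sum_le_sum fun j _ => ?_) has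
    have g1 : ψ j * ψ j ≤ 1 := by
      refine (hψ2 j).trans ?_
      have := smul_le_smul_of_le (c := 1 / 4) (d := 1) (by norm_num) (one_nonneg (n := n))
      rwa [one_smul] at this
    have g2 := conj_le g1 (a j)
    rw [hah, Matrix.mul_one] at g2
    have e1 : ψ j * a j * (ψ j * a j) = a j * (ψ j * ψ j) * a j := by
      nth_rewrite 1 [hcm j]
      simp only [Matrix.mul_assoc]
    rw [e1]
    exact g2.trans (sq_le_self (ha0 j) (ha1 j))
  have hyh : ∀ j, (d.Vᴴ * (ψ j * a j) * d.V)ᴴ = d.Vᴴ * (ψ j * a j) * d.V := fun j => by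
    rw [conjTranspose_mul, conjTranspose_mul, hY, conjTranspose_conjTranspose]
    simp only [Matrix.mul_assoc]
  have hsum : ∑ j, D2 d.VV d.VV (d.Vᴴ * (ψ j * a j) * d.V) ≤
      6 * (h + ∑ j, D u u (ψ j * a j)) := by
    rw [Finset.sum_congr rfl fun j _ => D2_herm d.VV (hyh j), ← Finset.mul_sum]
    simp only [D]
    rw [Finset.sum_comm, Finset.sum_comm (f := fun j s => ‖u s * (ψ j * a j) - ψ j * a j * u s‖ ^ 2)]
    have g := Finset.sum_le_sum fun s (_ : s ∈ Finset.univ) =>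
      comm_y hV (Y := fun j => ψ j * a j) hY hYs (u s) (d.VV s)
    rw [← Finset.mul_sum, Finset.sum_add_distrib, Finset.sum_add_distrib] at g
    simp only [D2, D] at hD
    linarith
  have hζ : ∀ j, ∃ ζ : ℂ, c * ‖d.q j * (ψ j * a j) * d.q j - ζ • d.q j‖ ^ 2 ≤
      D2 d.VV d.VV (d.Vᴴ * (ψ j * a j) * d.V) := fun j => by
    obtain ⟨b, hb, hle⟩ := hgap (d.Vᴴ * (ψ j * a j) * d.V)
    obtain ⟨ζ, hζ⟩ := hsc j b hb
    refine ⟨ζ, le_trans (mul_le_mul_of_nonneg_left ?_ hc.le) hle⟩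
    have e1 : d.q j * (ψ j * a j) * d.q j - ζ • d.q j =
        d.V * (d.e j * ((d.Vᴴ * (ψ j * a j) * d.V - b) * d.e j * d.Vᴴ)) := by
      have : ζ • d.q j = d.V * (d.e j * (b * d.e j * d.Vᴴ)) := by
        rw [KD.q, ← Matrix.smul_mul, ← Matrix.mul_smul, ← hζ]
        simp only [Matrix.mul_assoc]
      rw [this]
      simp only [KD.q, Matrix.sub_mul, Matrix.mul_sub, Matrix.mul_assoc]
    rw [e1]
    exact (hV.norm_mul_sq_le _).trans (((he j).ctr.norm_mul_sq_le _).trans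
      ((hV.adj.mul_norm_sq_le _).trans ((he j).ctr.mul_norm_sq_le _)))
  choose ζ hζ using hζ
  have g1 := Finset.sum_le_sum fun j (_ : j ∈ Finset.univ) =>
    one_index (hqc j) (ha0 j) (ha1 j) (hψ j) (hψ2 j) (hcm j) (htr j) (ζ j)
  rw [← Finset.mul_sum, Finset.sum_add_distrib, Finset.sum_add_distrib, ← Finset.mul_sum] at g1
  have g2 : ∑ j, ‖d.q j - d.q j * d.q j‖ ^ 2 ≤ h := (q_sq hV he hs).trans hk
  have g3 := (Finset.sum_le_sum fun j (_ : j ∈ Finset.univ) => hζ j).trans hsum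
  rw [← Finset.mul_sum] at g3
  have g4 : 0 ≤ ∑ j, ‖d.q j - a j‖ ^ 2 := Finset.sum_nonneg fun j _ => sq_nonneg _
  have g5 : 0 ≤ h + ∑ j, D u u (ψ j * a j) :=
    add_nonneg hh (Finset.sum_nonneg fun j _ => D_nonneg _ _ _)
  generalize h + ∑ j, D u u (ψ j * a j) = R at *
  generalize ∑ j, ‖d.q j * (ψ j * a j) * d.q j - ζ j • d.q j‖ ^ 2 = X at *
  have g6 : X ≤ 6 / c * R := by
    rw [div_mul_eq_mul_div, le_div_iff₀ hc]; linarith
  have g7 : 0 ≤ 6 / c * R := by positivity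
  have g8 : 72 / c * R = 12 * (6 / c * R) := by ring
  linarith

end Pool.Agent.P.MP_7f9919_an.NH
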