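import Pool.Agent.P.MP_7f9919_an.G73.Sm

/-! Sections 5.3 and 5.4 of the plan: localisation of the index function. -/

set_option autoImplicit false
set_option linter.unusedVariables false
set_option linter.unusedSectionVars false

namespace Pool.Agent.P.MP_7f9919_an.NH

open Matrix Filter Asymptotics
open scoped MatrixOrder ComplexOrder

namespace LocP

theorem abs_psi_le {M l : ℝ} (hM : 0 < M) (hl : 0 < l) : |psi M l| ≤ 1 / 2 := by
  have h1 : 0 ≤ l / (l + M) := by positivity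
  have h2 : l / (l + M) ≤ 1 := by rw [div_le_one (by positivity)]; linarith
  unfold psi
  rw [abs_le]
  constructor <;> linarith

theorem psi_sub_le {M l m : ℝ} (hM : 0 < M) (hl : 0 < l) (hm : 0 < m) :
    psi M l - psi M m ≤ max (1 - m / l) 0 := by
  have e : psi M l - psi M m = (l - m) * (M / ((l + M) * (m + M))) := by
    unfold psi
    field_simp
    ring
  have h0 : 0 ≤ M / ((l + M) * (m + M)) := by positivity
  rw [e]
  rcases le_total l m with h | h
  · exact (mul_nonpos_of_nonpos_of_nonneg (by linarith) h0).trans (le_max_right _ _)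
  · refine le_trans ?_ (le_max_left _ _)
    have e2 : 1 - m / l = (l - m) * (1 / l) := by field_simp
    rw [e2]
    refine mul_le_mul_of_nonneg_left ?_ (by linarith)
    rw [div_le_div_iff₀ (by positivity) hl]
    nlinarith [mul_pos hl hm, mul_pos hM hm, mul_pos hM hM]

theorem sq_psi_sub_le {M l m : ℝ} (hM : 0 < M) (hl : 0 < l) (hm : 0 < m) :
    (psi M m - psi M l) ^ 2 ≤ 2 * max (1 - m / l) 0 + (psi M m - psi M l) := by
  have h1 := abs_le.mp (abs_psi_le hM hl)
  have h2 := abs_le.mp (abs_psi_le hM hm)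
  have h3 := psi_sub_le hM hl hm
  have h4 : 0 ≤ max (1 - m / l) 0 := le_max_right _ _
  rcases le_total (psi M m) (psi M l) with h | h
  · nlinarith
  · nlinarith

theorem lo_le {M l : ℝ} (hM : 0 < M) (hl : 0 < l) : 1 - l / M ≤ 4 * |psi M l| := by
  rcases le_total M l with h | h
  · have : 1 ≤ l / M := by rw [le_div_iff₀ hM]; linarith
    linarith [abs_nonneg (psi M l)]
  · have e : -psi M l * 4 = (M - l) * (2 / (l + M)) := by
      unfold psi
      field_simp
      ring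
    have e2 : 1 - l / M = (M - l) * (1 / M) := by field_simp
    have h3 : (M - l) * (1 / M) ≤ (M - l) * (2 / (l + M)) := by
      refine mul_le_mul_of_nonneg_left ?_ (by linarith)
      rw [div_le_div_iff₀ hM (by positivity)]
      linarith
    linarith [neg_le_abs (psi M l)]

theorem hi_le {M m : ℝ} (hM : 0 < M) (hm : 0 < m) : 1 - M / m ≤ 4 * |psi M m| := by
  rcases le_total m M with h | h
  · have : 1 ≤ M / m := by rw [le_div_iff₀ hm]; linarith
    linarith [abs_nonneg (psi M m)]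
  · have e : psi M m * 4 = (m - M) * (2 / (m + M)) := by
      unfold psi
      field_simp
      ring
    have e2 : 1 - M / m = (m - M) * (1 / m) := by field_simp
    have h3 : (m - M) * (1 / m) ≤ (m - M) * (2 / (m + M)) := by
      refine mul_le_mul_of_nonneg_left ?_ (by linarith)
      rw [div_le_div_iff₀ hm (by positivity)]
      linarith
    linarith [le_abs_self (psi M m)]

theorem max_le_psi {M l m : ℝ} (hM : 0 < M) (hl : 0 < l) (hm : 0 < m) :
    max (1 - l / m) 0 ≤ 4 * |psi M l| + 4 * |psi M m| := by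
  have h1 := lo_le hM hl
  have h2 := hi_le hM hm
  have a1 := abs_nonneg (psi M l)
  have a2 := abs_nonneg (psi M m)
  have e : l / m = l / M * (M / m) := by field_simp
  have u0 : 0 ≤ l / M := by positivity
  have v0 : 0 ≤ M / m := by positivity
  refine max_le ?_ (by linarith)
  rw [e]
  generalize l / M = u at *
  generalize M / m = v at *
  rcases le_total u 1 with hu | hu
  · rcases le_total v 1 with hv | hv
    · nlinarith [mul_nonneg (sub_nonneg.mpr hu) (sub_nonneg.mpr hv)]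
    · nlinarith [mul_nonneg u0 (sub_nonneg.mpr hv)]
  · nlinarith [mul_nonneg v0 (sub_nonneg.mpr hu)]

theorem cs {ι : Type} [Fintype ι] (μ x : ι → ℝ) (hμ : ∀ i, 0 ≤ μ i) {A B : ℝ}
    (hA : ∑ i, μ i ≤ A) (hB : ∑ i, μ i * x i ^ 2 ≤ B) : ∑ i, μ i * |x i| ≤ √(A * B) := by
  refine Real.le_sqrt_of_sq_le ?_
  have h := Finset.sum_sq_le_sum_mul_sum_of_sq_le_mul Finset.univ (r := fun i => μ i * |x i|)
    (f := μ) (g := fun i => μ i * x i ^ 2) (fun i _ => hμ i)
    (fun i _ => mul_nonneg (hμ i) (sq_nonneg _)) fun i _ => by rw [mul_pow, sq_abs]; nlinarith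
  have h0 : 0 ≤ ∑ i, μ i := Finset.sum_nonneg fun i _ => hμ i
  exact h.trans (mul_le_mul hA hB
    (Finset.sum_nonneg fun i _ => mul_nonneg (hμ i) (sq_nonneg _)) (h0.trans hA))

theorem cs3 {J L : Type} [Fintype J] [Fintype L] (μ x : J → L → L → ℝ) (hμ : ∀ j l m, 0 ≤ μ j l m)
    {A B : ℝ} (hA : ∑ j, ∑ l, ∑ m, μ j l m ≤ A) (hB : ∑ j, ∑ l, ∑ m, μ j l m * x j l m ^ 2 ≤ B) :
    ∑ j, ∑ l, ∑ m, μ j l m * |x j l m| ≤ √(A * B) := by
  have := cs (ι := J × L × L) (fun i => μ i.1 i.2.1 i.2.2) (fun i => x i.1 i.2.1 i.2.2)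
    (fun i => hμ _ _ _) (A := A) (B := B) (by simpa only [Fintype.sum_prod_type] using hA)
    (by simpa only [Fintype.sum_prod_type] using hB)
  simpa only [Fintype.sum_prod_type] using this

variable {n L : Type} [Fintype n] [DecidableEq n] [Fintype L]

/-- a partition of unity into orthogonal projections -/
structure PU (p : L → Mat n n) : Prop where
  pr : ∀ l, IsProj (p l)
  sm : ∑ l, p l = 1
  ot : ∀ l l', l ≠ l' → p l * p l' = 0

/-- a real function of a partition of unity -/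
noncomputable def cf (f : L → ℝ) (p : L → Mat n n) : Mat n n := ∑ l, f l • p l

variable {p q : L → Mat n n}

theorem PU.mul_cf (h : PU p) (f : L → ℝ) (l : L) : p l * cf f p = f l • p l := by
  rw [cf, Matrix.mul_sum, Finset.sum_eq_single l]
  · rw [Matrix.mul_smul, (h.pr l).2]
  · intro m _ hm
    rw [Matrix.mul_smul, h.ot l m hm.symm, smul_zero]
  · simp

theorem PU.cf_mul (h : PU p) (f : L → ℝ) (l : L) : cf f p * p l = f l • p l := by
  rw [cf, Matrix.sum_mul, Finset.sum_eq_single l]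
  · rw [Matrix.smul_mul, (h.pr l).2]
  · intro m _ hm
    rw [Matrix.smul_mul, h.ot m l hm, smul_zero]
  · simp

theorem PU.herm (h : PU p) (f : L → ℝ) : (cf f p)ᴴ = cf f p := by
  rw [cf, conjTranspose_sum]
  exact Finset.sum_congr rfl fun l _ => by simp [(h.pr l).1]

theorem cf_zero (p : L → Mat n n) : cf (fun _ => 0) p = 0 := by simp [cf]

theorem PU.mass (hp : PU p) (hq : PU q) (a : Mat n n) :
    ∑ l, ∑ m, ‖p m * a * q l‖ ^ 2 = ‖a‖ ^ 2 := by
  rw [← sum_norm_mul_proj_sq Finset.univ (fun l _ => hq.pr l) hq.sm a]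
  refine Finset.sum_congr rfl fun l _ => ?_
  rw [← sum_norm_proj_mul_sq Finset.univ (fun l _ => hp.pr l) hp.sm (a * q l)]
  simp only [Matrix.mul_assoc]

theorem PU.key (hp : PU p) (hq : PU q) (f g : L → ℝ) (a : Mat n n) :
    ‖cf f p * a - a * cf g q‖ ^ 2 = ∑ l, ∑ m, ‖p m * a * q l‖ ^ 2 * (f m - g l) ^ 2 := by
  rw [← hp.mass hq]
  refine Finset.sum_congr rfl fun l _ => Finset.sum_congr rfl fun m _ => ?_
  have : p m * (cf f p * a - a * cf g q) * q l = (f m - g l) • (p m * a * q l) := by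
    rw [Matrix.mul_sub, Matrix.sub_mul, ← Matrix.mul_assoc, hp.mul_cf, ← Matrix.mul_assoc,
      Matrix.mul_assoc (p m * a), hq.cf_mul, sub_smul, Matrix.smul_mul, Matrix.smul_mul,
      Matrix.mul_smul]
  rw [this, norm_real_smul, mul_pow, sq_abs, mul_comm]

theorem PU.tr_right (hp : PU p) (hq : PU q) (g : L → ℝ) (a : Mat n n) :
    ∑ l, ∑ m, ‖p m * a * q l‖ ^ 2 * g l = tr (aᴴ * a * cf g q) := by
  rw [cf, Matrix.mul_sum, tr_sum]
  refine Finset.sum_congr rfl fun l _ => ?_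
  rw [← Finset.sum_mul, Matrix.mul_smul, tr_smul, ← (hq.pr l).norm_mul_sq, mul_comm,
    ← sum_norm_proj_mul_sq Finset.univ (fun l _ => hp.pr l) hp.sm (a * q l)]
  simp only [Matrix.mul_assoc]

theorem PU.tr_left (hp : PU p) (hq : PU q) (f : L → ℝ) (a : Mat n n) :
    ∑ l, ∑ m, ‖p m * a * q l‖ ^ 2 * f m = tr (cf f p * (a * aᴴ)) := by
  rw [cf, Matrix.sum_mul, tr_sum, Finset.sum_comm]
  refine Finset.sum_congr rfl fun m _ => ?_
  rw [← Finset.sum_mul, Matrix.smul_mul, tr_smul, ← (hp.pr m).mul_norm_sq, mul_comm,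
    sum_norm_mul_proj_sq Finset.univ (fun l _ => hq.pr l) hq.sm (p m * a)]

theorem PU.norm_cf_mul (hp : PU p) {f : L → ℝ} (hf : ∀ l, |f l| ≤ 1 / 2) (y : Mat n n) :
    ‖cf f p * y‖ ≤ ‖y‖ / 2 := by
  have h := hp.key hp f (fun _ => 0) y
  rw [cf_zero, Matrix.mul_zero, sub_zero] at h
  have h2 : ‖cf f p * y‖ ^ 2 ≤ (‖y‖ / 2) ^ 2 := by
    rw [h, div_pow, ← hp.mass hp y, Finset.sum_div]
    refine Finset.sum_le_sum fun l _ => ?_
    rw [Finset.sum_div]
    refine Finset.sum_le_sum fun m _ => ?_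
    have h3 := abs_le.mp (hf m)
    have h4 : (f m - 0) ^ 2 ≤ 1 / 4 := by nlinarith
    nlinarith [mul_le_mul_of_nonneg_left h4 (sq_nonneg ‖p m * y * p l‖)]
  exact (pow_le_pow_iff_left₀ (norm_nonneg _) (by positivity) two_ne_zero).mp h2

theorem PU.norm_mul_cf (hp : PU p) {f : L → ℝ} (hf : ∀ l, |f l| ≤ 1 / 2) (y : Mat n n) :
    ‖y * cf f p‖ ≤ ‖y‖ / 2 := by
  have := hp.norm_cf_mul hf yᴴ
  rwa [← hp.herm, ← conjTranspose_mul, norm_adj, norm_adj] at this

theorem PU.conj (hp : PU p) {t : Mat n n} (ht : IsUni t) : PU fun m => t * p m * tᴴ where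
  pr m := (hp.pr m).conj_isom ht.1
  sm := by rw [← Matrix.sum_mul, ← Matrix.mul_sum, hp.sm, Matrix.mul_one, ht.2]
  ot l m h := by
    calc t * p l * tᴴ * (t * p m * tᴴ) = t * (p l * (tᴴ * t) * p m) * tᴴ := by
          simp only [Matrix.mul_assoc]
      _ = 0 := by rw [ht.1, Matrix.mul_one, hp.ot l m h, Matrix.mul_zero, Matrix.zero_mul]

theorem cf_conj (f : L → ℝ) (p : L → Mat n n) (t : Mat n n) :
    cf f (fun m => t * p m * tᴴ) = t * cf f p * tᴴ := by
  simp only [cf, Matrix.mul_sum, Matrix.sum_mul, Matrix.mul_smul, Matrix.smul_mul]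

theorem PU.tr_diff (hp : PU p) {f : L → ℝ} (hf : ∀ l, |f l| ≤ 1 / 2) {t a : Mat n n}
    (ht : IsUni t) :
    tr (t * cf f p * tᴴ * (a * a)) - tr (a * a * cf f p) ≤ ‖a‖ * ‖t * a - a * t‖ := by
  obtain ⟨b, hb⟩ : ∃ b, b = tᴴ * a * t := ⟨_, rfl⟩
  have nb : ‖b‖ = ‖a‖ := by rw [hb, ht.mul_norm, ht.adj.norm_mul]
  have nd : ‖b - a‖ = ‖t * a - a * t‖ := by
    have := norm_conj_sub (u := tᴴ) ht.adj a
    rw [conjTranspose_conjTranspose, norm_comm_adj ht ht] at this
    rw [hb, this]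
  have e1 : tr (t * cf f p * tᴴ * (a * a)) = tr (b * b * cf f p) := by
    have : b * b = tᴴ * (a * a) * t := by
      calc b * b = tᴴ * (a * (t * tᴴ) * a) * t := by simp only [hb, Matrix.mul_assoc]
        _ = _ := by rw [ht.2, Matrix.mul_one]
    rw [this, tr_mul_comm, Matrix.mul_assoc _ t, tr_mul_comm (tᴴ * (a * a)), tr_mul_comm (a * a)]
    simp only [Matrix.mul_assoc]
  have e2 : tr (b * b * cf f p) - tr (a * a * cf f p)
      = tr ((b - a) * (a * cf f p)) + tr ((b - a) * (cf f p * b)) := by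
    rw [← Matrix.mul_assoc (b - a) (cf f p), tr_cycle (b - a)]
    simp only [Matrix.mul_sub, Matrix.sub_mul, tr_sub, Matrix.mul_assoc]
    ring
  have h1 := (le_abs_self _).trans (abs_tr_mul_le (b - a) (a * cf f p))
  have h2 := (le_abs_self _).trans (abs_tr_mul_le (b - a) (cf f p * b))
  have h3 := mul_le_mul_of_nonneg_left (hp.norm_mul_cf hf a) (norm_nonneg (b - a))
  have h4 := mul_le_mul_of_nonneg_left (hp.norm_cf_mul hf b) (norm_nonneg (b - a))
  rw [e1, e2, ← nd]
  rw [nb] at h4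
  linarith

theorem PU.nu_le (hp : PU p) (hq : PU q) {J : Type} [Fintype J] {a : J → Mat n n}
    (ha : ∀ j, (a j)ᴴ = a j) (hs : ∑ j, a j * a j ≤ 1) (hc : ∀ j l, q l * a j = a j * q l)
    (l m : L) : ∑ j, ‖p m * a j * q l‖ ^ 2 ≤ tr (q l * p m) := by
  have e : ∀ j, ‖p m * a j * q l‖ ^ 2 = tr (p m * ((q l)ᴴ * (a j * a j) * q l)) := fun j => by
    rw [Matrix.mul_assoc, ← hc, (hp.pr m).mul_norm_sq, conjTranspose_mul, ha, (hq.pr l).1]
    simp only [Matrix.mul_assoc]
  have h := tr_mul_le_right (hp.pr m).nonneg (conj_le hs (q l))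
  rw [Matrix.mul_one, Matrix.mul_sum, Matrix.sum_mul, Matrix.mul_sum, tr_sum] at h
  rw [Finset.sum_congr rfl fun j _ => e j]
  refine h.trans (le_of_eq ?_)
  rw [(hq.pr l).1, (hq.pr l).2, tr_mul_comm]

theorem sum3_le {J : Type} [Fintype J] {μ : J → L → L → ℝ} {ν c : L → L → ℝ}
    (h : ∀ l m, ∑ j, μ j l m ≤ ν l m) (hc : ∀ l m, 0 ≤ c l m) :
    ∑ j, ∑ l, ∑ m, μ j l m * c l m ≤ ∑ l, ∑ m, ν l m * c l m := by
  rw [Finset.sum_comm]
  refine Finset.sum_le_sum fun l _ => ?_
  rw [Finset.sum_comm]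
  refine Finset.sum_le_sum fun m _ => ?_
  rw [← Finset.sum_mul]
  exact mul_le_mul_of_nonneg_right (h l m) (hc l m)

end LocP

open LocP in
theorem loc : S_Loc := by
  intro n S J _ _ _ _ VV F t a M e T Z G hF ht ham hah has hM he hT hZ hG
  have hq : PU F.z := ⟨hF.zp, hF.zs, hF.zo⟩
  have hp := hq.conj ht
  obtain ⟨f, hf⟩ : ∃ f : J → F.Λ → ℝ, f = fun j l => psi (M j) (F.w l) := ⟨_, rfl⟩
  have ps : ∀ j, F.ps (M j) = cf (f j) F.z := fun j => by rw [hf]; rfl
  have fb : ∀ j l, |f j l| ≤ 1 / 2 := fun j l => by rw [hf]; exact abs_psi_le (hM j) (hF.wpos l)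
  have hc : ∀ j l, F.z l * a j = a j * F.z l := fun j l => hF.zc l _ (ham j)
  have pc : ∀ j, cf (f j) F.z * a j = a j * cf (f j) F.z := fun j => by
    simp only [cf, Matrix.mul_sum, Matrix.sum_mul, Matrix.mul_smul, Matrix.smul_mul, hc]
  obtain ⟨μ, hμ⟩ : ∃ μ : J → F.Λ → F.Λ → ℝ,
      ∀ j l m, ‖t * F.z m * tᴴ * a j * F.z l‖ ^ 2 = μ j l m := ⟨_, fun _ _ _ => rfl⟩
  have μ0 : ∀ j l m, 0 ≤ μ j l m := fun j l m => by rw [← hμ]; positivity
  have μν : ∀ l m, ∑ j, μ j l m ≤ F.nu t l m := fun l m => by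
    simpa only [hμ, Fr.nu] using hp.nu_le hq hah has hc l m
  have ms : ∀ j, ∑ l, ∑ m, μ j l m = ‖a j‖ ^ 2 := fun j => by
    simpa only [hμ] using hp.mass hq (a j)
  have an : ∑ j, ‖a j‖ ^ 2 ≤ Fintype.card n := by
    have := tr_mono has
    rw [tr_one, tr_sum] at this
    refine le_of_eq_of_le (Finset.sum_congr rfl fun j _ => ?_) this
    rw [norm_sq_eq_tr, hah]
  have ky : ∀ j (g g' : F.Λ → ℝ), ‖t * cf g F.z * tᴴ * a j - a j * cf g' F.z‖ ^ 2
      = ∑ l, ∑ m, μ j l m * (g m - g' l) ^ 2 := fun j g g' => by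
    simpa only [hμ, cf_conj] using hp.key hq g g' (a j)
  have hG0 : ∑ j, ‖t * cf (f j) F.z * tᴴ * a j - a j * cf (f j) F.z‖ ^ 2 ≤ G := by
    have h1 : ∀ j, ‖t * cf (f j) F.z * tᴴ * a j - a j * cf (f j) F.z‖ ^ 2 ≤
        2 * ∑ l, ∑ m, μ j l m * max (1 - F.w m / F.w l) 0 + ‖a j‖ * ‖t * a j - a j * t‖ := by
      intro j
      have l1 := hp.tr_left hq (f j) (a j)
      have l2 := hp.tr_right hq (f j) (a j)
      simp only [hμ, cf_conj, hah] at l1 l2
      have l3 := hq.tr_diff (fb j) (a := a j) ht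
      rw [← l1, ← l2] at l3
      refine le_trans ?_ (add_le_add_right l3 _)
      rw [ky, Finset.mul_sum, ← Finset.sum_sub_distrib, ← Finset.sum_add_distrib]
      refine Finset.sum_le_sum fun l _ => ?_
      rw [Finset.mul_sum, ← Finset.sum_sub_distrib, ← Finset.sum_add_distrib]
      refine Finset.sum_le_sum fun m _ => ?_
      have := mul_le_mul_of_nonneg_left (sq_psi_sub_le (hM j) (hF.wpos l) (hF.wpos m)) (μ0 j l m)
      simp only [hf]
      linarith
    have h2 := Finset.sum_le_sum fun j (_ : j ∈ Finset.univ) => h1 j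
    rw [Finset.sum_add_distrib, ← Finset.mul_sum] at h2
    have h3 := sum3_le μν (c := fun l m => max (1 - F.w m / F.w l) 0) fun _ _ => le_max_right _ _
    have h4 : ∑ j, ‖a j‖ * ‖t * a j - a j * t‖ ≤ √(Fintype.card n * T) := by
      refine Real.le_sqrt_of_sq_le ((Finset.sum_mul_sq_le_sq_mul_sq _ _ _).trans ?_)
      rw [hT]
      exact mul_le_mul_of_nonneg_right an (by positivity)
    linarith
  simp only [ps] at hZ ⊢
  constructor
  · have h1 : ∀ j, ‖t * (cf (f j) F.z * a j) - cf (f j) F.z * a j * t‖ ^ 2 ≤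
        2 * ‖t * cf (f j) F.z * tᴴ * a j - a j * cf (f j) F.z‖ ^ 2
          + 1 / 2 * ‖t * a j - a j * t‖ ^ 2 := by
      intro j
      have e1 : t * (cf (f j) F.z * a j) * tᴴ - cf (f j) F.z * a j
          = t * cf (f j) F.z * tᴴ * (t * a j * tᴴ - a j)
            + (t * cf (f j) F.z * tᴴ * a j - a j * cf (f j) F.z) := by
        have : t * cf (f j) F.z * tᴴ * (t * a j * tᴴ) = t * (cf (f j) F.z * a j) * tᴴ := by
          calc _ = t * (cf (f j) F.z * (tᴴ * t) * a j) * tᴴ := by simp only [Matrix.mul_assoc]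
            _ = _ := by rw [ht.1, Matrix.mul_one]
        rw [Matrix.mul_sub, this, ← pc]
        abel
      have l1 := hp.norm_cf_mul (fb j) (t * a j * tᴴ - a j)
      rw [cf_conj, norm_conj_sub ht] at l1
      have l2 := pow_le_pow_left₀ (norm_nonneg _) l1 2
      rw [← norm_conj_sub ht, e1]
      refine (norm_add_sq_le _ _).trans ?_
      linarith
    have h2 := Finset.sum_le_sum fun j (_ : j ∈ Finset.univ) => h1 j
    rw [Finset.sum_add_distrib, ← Finset.mul_sum, ← Finset.mul_sum, ← hT] at h2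
    linarith
  · have tot : ∑ l, ∑ m, F.nu t l m = Fintype.card n := by
      simp only [Fr.nu]
      rw [← tr_one, ← hq.sm, tr_sum]
      refine Finset.sum_congr rfl fun l _ => ?_
      rw [← tr_sum, ← Matrix.mul_sum, hp.sm, Matrix.mul_one]
    have mn : ∑ j, ∑ l, ∑ m, μ j l m ≤ Fintype.card n := by simpa only [ms] using an
    have c1 : ∀ l m, 0 ≤ 1 - max (1 - F.w l / F.w m) 0 := fun l m => by
      have : 0 ≤ F.w l / F.w m := div_nonneg (hF.wpos l).le (hF.wpos m).le
      rw [sub_nonneg]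
      exact max_le (by linarith) zero_le_one
    have h1 := sum3_le μν c1
    simp only [mul_sub, mul_one, Finset.sum_sub_distrib, tot, ms] at h1
    have z1 : ∑ j, ∑ l, ∑ m, μ j l m * f j l ^ 2 ≤ Z := by
      rw [hZ]
      refine le_of_eq (Finset.sum_congr rfl fun j _ => ?_)
      have := ky j (fun _ => 0) (f j)
      simp only [cf_zero, Matrix.mul_zero, Matrix.zero_mul, zero_sub, norm_neg, neg_sq] at this
      rw [pc, this]
    have z2 : ∑ j, ∑ l, ∑ m, μ j l m * f j m ^ 2 ≤ 2 * G + 2 * Z := by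
      have l1 : ∀ j, ∑ l, ∑ m, μ j l m * f j m ^ 2 ≤
          2 * ‖t * cf (f j) F.z * tᴴ * a j - a j * cf (f j) F.z‖ ^ 2
            + 2 * ‖cf (f j) F.z * a j‖ ^ 2 := by
        intro j
        have := ky j (f j) fun _ => 0
        simp only [cf_zero, Matrix.mul_zero, sub_zero] at this
        have l2 := norm_add_sq_le (t * cf (f j) F.z * tᴴ * a j - a j * cf (f j) F.z)
          (a j * cf (f j) F.z)
        rw [sub_add_cancel, this] at l2
        rwa [pc]
      have l2 := Finset.sum_le_sum fun j (_ : j ∈ Finset.univ) => l1 j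
      rw [Finset.sum_add_distrib, ← Finset.mul_sum, ← Finset.mul_sum, ← hZ] at l2
      linarith
    have h2 := cs3 μ (fun j l _ => f j l) μ0 mn z1
    have h3 := cs3 μ (fun j _ m => f j m) μ0 mn z2
    have h4 : ∑ j, ∑ l, ∑ m, μ j l m * max (1 - F.w l / F.w m) 0 ≤
        4 * ∑ j, ∑ l, ∑ m, μ j l m * |f j l| + 4 * ∑ j, ∑ l, ∑ m, μ j l m * |f j m| := by
      simp only [Finset.mul_sum, ← Finset.sum_add_distrib]
      refine Finset.sum_le_sum fun j _ => Finset.sum_le_sum fun l _ =>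
        Finset.sum_le_sum fun m _ => ?_
      have := mul_le_mul_of_nonneg_left (max_le_psi (hM j) (hF.wpos l) (hF.wpos m)) (μ0 j l m)
      simp only [hf]
      linarith
    linarith

end Pool.Agent.P.MP_7f9919_an.NH
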