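import Pool.Agent.P.MP_7f9919_an.G73.Sm

/-! Theorem I along an asymptotic representation, and transport of asymptotic representations. -/

set_option autoImplicit false
set_option linter.unusedSectionVars false

namespace Pool.Agent.P.MP_7f9919_an.NH

open Matrix Filter Asymptotics
open scoped MatrixOrder ComplexOrder

namespace TransP

theorem empty_data {n S : Type} [Fintype n] [DecidableEq n] [Fintype S] (u : S → Mat n n)
    (c : ℝ) : ∃ d : KD n S, d.OK u c (Fintype.card n) := by
  refine ⟨{ κ := Empty, J := Empty, VV := fun _ => 0, V := 0, e := fun _ => 0 },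
    ⟨fun _ => ctr_zero, fun y => ⟨0, (Com _).zero_mem, ?_⟩, fun j => j.elim,
      Subsingleton.elim _ _, fun j => j.elim, fun j => j.elim⟩, ctr_zero, ?_, ?_, ?_⟩
  · rw [Subsingleton.elim (y - 0) 0, norm_zero]
    simpa using D2_nonneg _ _ _
  · simp [D2, D]
  · simp
  · simp

end TransP

theorem diag : S_Diag := by
  intro H S _ _ x hT ι _ _ u hu
  obtain ⟨c, hc, hT⟩ := hT
  choose U hU hU' using fun k => exists_isRep (u := fun s => u k (x s)) fun s => hu.uni k _
  have hAp : ∀ w, Ap (fun k => U k w) fun k => u k (FreeGroup.lift x w) := by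
    have hof : ∀ s, Ap (fun k => U k (FreeGroup.of s)) fun k =>
        u k (FreeGroup.lift x (FreeGroup.of s)) := fun s => Ap.of_eq fun k => by
      rw [FreeGroup.lift_apply_of]
      exact congrFun (hU' k) s
    intro w
    induction w using FreeGroup.induction_on with
    | C1 =>
      rw [map_one]
      exact (Ap.of_eq fun k => (hU k).one).trans hu.one.symm
    | of s => exact hof s
    | inv_of s _ =>
      rw [map_inv]
      exact (Ap.of_eq fun k => (hU k).inv _).trans ((hof s).adj.trans (hu.inv _).symm)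
    | mul a b ha hb =>
      rw [map_mul]
      exact (Ap.of_eq fun k => (hU k).mul a b).trans
        ((ha.mul hb (fun k => ((hU k).uni a).ctr) fun k => hu.ctr _ k).trans (hu.mul _ _).symm)
  let P : ℕ → ℕ → Prop := fun k j => ∃ d : KD (ι k) S,
    d.OK (fun s => u k (x s)) c (1 / ((j : ℝ) + 1) * Fintype.card (ι k))
  have hP : ∀ j, ∀ᶠ k in atTop, P k j := by
    intro j
    obtain ⟨W, ε, hε, hW, h⟩ := hT (1 / ((j : ℝ) + 1)) Nat.one_div_pos_of_nat
    have h1 : Sm ι fun k => ∑ w ∈ W, ‖U k w - 1‖ ^ 2 := Sm.sum W fun w hw => by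
      have h2 := hAp w
      rw [MonoidHom.mem_ker.1 (hW w hw)] at h2
      exact h2.trans hu.one
    filter_upwards [h1.bound hε] with k hk
    have := h (ι k) (U k) (hU k) hk
    rwa [hU' k] at this
  have hP0 : ∀ k, P k 0 := fun k => by
    simpa [P] using TransP.empty_data (fun s => u k (x s)) c
  classical
  choose d hd using fun k => Nat.findGreatest_spec (P := P k) (Nat.zero_le k) (hP0 k)
  refine ⟨c, hc, d, _, Sm.of_bound (fun k => by positivity) fun ε hε => ?_, hd⟩
  obtain ⟨j, hj⟩ := exists_nat_one_div_lt hε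
  filter_upwards [hP j, eventually_ge_atTop j] with k h1 h2
  refine mul_le_mul_of_nonneg_right (le_trans ?_ hj.le) (Nat.cast_nonneg _)
  exact Nat.one_div_le_one_div (Nat.le_findGreatest h2 h1)

theorem trans : S_Trans := by
  intro H S _ _ x ι _ _ u c d h hu hh hd
  have hV : ∀ k, Ctr (d k).V := fun k => (hd k).2.1
  have hD : ∀ k, D2 (fun s => u k (x s)) (d k).VV (d k).V ≤ h k := fun k => (hd k).2.2.1
  have hK : ∀ k, Fintype.card (d k).κ - ‖(d k).V‖ ^ 2 ≤ h k := fun k => (hd k).2.2.2.1
  have hN : ∀ k, Fintype.card (ι k) - ‖(d k).V‖ ^ 2 ≤ h k := fun k => (hd k).2.2.2.2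
  choose u' hu' he using fun k g => exists_transport_ctr (hV k) (hu.uni k g)
  have he' : ∀ k g, ‖u k g * (d k).V - (d k).V * u' k g‖ ^ 2 ≤ 6 * h k := fun k g => by
    have := he k g
    have := hK k
    have := hN k
    linarith
  have hhalf := hh.bound (ε := 1 / 2) (by norm_num)
  have c1 : ∀ f : ℕ → ℝ, Sm ι f → Sm (fun k => (d k).κ) f := fun f hf =>
    hf.trans_isBigO (IsBigO.of_bound 2 (hhalf.mono fun k hk => by
      rw [Real.norm_natCast, Real.norm_natCast]
      have := (hV k).norm_sq_le_right
      have := hN k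
      linarith))
  have c2 : ∀ f : ℕ → ℝ, Sm (fun k => (d k).κ) f → Sm ι f := fun f hf =>
    hf.trans_isBigO (IsBigO.of_bound 2 (hhalf.mono fun k hk => by
      rw [Real.norm_natCast, Real.norm_natCast]
      have := (hV k).norm_sq_le_left
      have := hK k
      have : (0 : ℝ) ≤ Fintype.card (ι k) := Nat.cast_nonneg _
      linarith))
  refine ⟨u', ⟨hu', fun g g' => c1 _ ?_⟩, fun s => c1 _ ?_, fun g hg => ?_⟩
  · refine ((hh.cmul 76).add ((hu.2 g g').cmul 4)).mono (fun _ => sq_nonneg _) fun k => ?_
    have h1 := (hV k).norm_sq_le_mul_add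
      ((hu' k (g * g')).ctr.sub_le_four' ((hu' k g).mul (hu' k g')).ctr)
    have e : (d k).V * (u' k (g * g') - u' k g * u' k g') =
        -(u k (g * g') * (d k).V - (d k).V * u' k (g * g')) +
        (u k (g * g') - u k g * u k g') * (d k).V +
        u k g * (u k g' * (d k).V - (d k).V * u' k g') +
        (u k g * (d k).V - (d k).V * u' k g) * u' k g' := by
      simp only [Matrix.mul_sub, Matrix.sub_mul, Matrix.mul_assoc]
      abel
    have h2 := norm_add4_sq_le (-(u k (g * g') * (d k).V - (d k).V * u' k (g * g')))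
      ((u k (g * g') - u k g * u k g') * (d k).V)
      (u k g * (u k g' * (d k).V - (d k).V * u' k g'))
      ((u k g * (d k).V - (d k).V * u' k g) * u' k g')
    rw [← e, norm_neg, (hu.uni k g).norm_mul, (hu' k g').mul_norm] at h2
    have h3 := (hV k).mul_norm_sq_le (u k (g * g') - u k g * u k g')
    have := he' k g
    have := he' k g'
    have := he' k (g * g')
    have := hK k
    linarith
  · refine (hh.cmul 18).mono (fun _ => sq_nonneg _) fun k => ?_
    have h1 := (hV k).norm_sq_le_mul_add ((hu' k (x s)).ctr.sub_le_four' ((hd k).1.1 s))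
    have e : (d k).V * (u' k (x s) - (d k).VV s) =
        (u k (x s) * (d k).V - (d k).V * (d k).VV s) -
        (u k (x s) * (d k).V - (d k).V * u' k (x s)) := by
      simp only [Matrix.mul_sub]
      abel
    have h2 := norm_sub_sq_le (u k (x s) * (d k).V - (d k).V * (d k).VV s)
      (u k (x s) * (d k).V - (d k).V * u' k (x s))
    rw [← e] at h2
    have h3 : ‖u k (x s) * (d k).V - (d k).V * (d k).VV s‖ ^ 2 ≤ h k :=
      (Finset.single_le_sum (f := fun s => ‖u k (x s) * (d k).V - (d k).V * (d k).VV s‖ ^ 2)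
        (fun _ _ => sq_nonneg _) (Finset.mem_univ s)).trans ((D_le_D2 _ _ _).trans (hD k))
    have := he' k (x s)
    have := hK k
    linarith
  · refine ((hh.cmul 16).add ((c2 _ hg).cmul 2)).mono (fun _ => sq_nonneg _) fun k => ?_
    have h1 := (hV k).norm_sq_le_mul_add' ((hu.ctr g k).sub_le_four ctr_one)
    have e : (u k g - 1) * (d k).V =
        (u k g * (d k).V - (d k).V * u' k g) + (d k).V * (u' k g - 1) := by
      simp only [Matrix.mul_sub, Matrix.sub_mul, Matrix.mul_one, Matrix.one_mul]
      abel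
    have h2 := norm_add_sq_le (u k g * (d k).V - (d k).V * u' k g) ((d k).V * (u' k g - 1))
    rw [← e] at h2
    have h3 := (hV k).norm_mul_sq_le (u' k g - 1)
    have := he' k g
    have := hN k
    linarith

end Pool.Agent.P.MP_7f9919_an.NH
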