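import Pool.Agent.P.MP_7f9919_an.G73.Sm

/-! Section 5.2: two algebras. -/

set_option autoImplicit false
set_option linter.unusedVariables false
set_option linter.unusedSectionVars false

namespace Pool.Agent.P.MP_7f9919_an.NH

open Matrix Filter Asymptotics
open scoped MatrixOrder ComplexOrder

namespace TwoP

variable {n S : Type} [Fintype n] [DecidableEq n] [Fintype S] {VV : S → Mat n n} {F : Fr n}
  {t : Mat n n}

/-- squared coefficient -/
noncomputable def cf (F : Fr n) (t : Mat n n) (i j : F.I) : ℝ :=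
  ‖trace ((F.a j)ᴴ * (tᴴ * F.a i * t))‖ ^ 2

/-- block sums of the squared coefficients -/
noncomputable def Q (F : Fr n) (t : Mat n n) (l m : F.Λ) : ℝ :=
  ∑ i with F.lab i = l, ∑ j with F.lab j = m, cf F t i j

theorem cf_symm (F : Fr n) (t : Mat n n) (i j : F.I) : cf F tᴴ j i = cf F t i j := by
  unfold cf
  have h : trace ((F.a i)ᴴ * (tᴴᴴ * F.a j * tᴴ)) = star (trace ((F.a j)ᴴ * (tᴴ * F.a i * t))) := by
    rw [← trace_conjTranspose]
    simp only [conjTranspose_mul, conjTranspose_conjTranspose]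
    rw [show (F.a i)ᴴ * (t * F.a j * tᴴ) = ((F.a i)ᴴ * t * F.a j) * tᴴ by
      simp only [Matrix.mul_assoc], trace_mul_comm]
    simp only [Matrix.mul_assoc]
  rw [h, norm_star]

theorem Q_symm (F : Fr n) (t : Mat n n) (l m : F.Λ) : Q F tᴴ m l = Q F t l m := by
  unfold Q
  rw [Finset.sum_comm]
  exact Finset.sum_congr rfl fun i _ => Finset.sum_congr rfl fun j _ => cf_symm F t i j

theorem Q_nonneg (F : Fr n) (t : Mat n n) (l m : F.Λ) : 0 ≤ Q F t l m :=
  Finset.sum_nonneg fun _ _ => Finset.sum_nonneg fun _ _ => sq_nonneg _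

theorem nu_symm (F : Fr n) (t : Mat n n) (l m : F.Λ) : F.nu tᴴ m l = F.nu t l m := by
  unfold Fr.nu
  rw [conjTranspose_conjTranspose,
    show F.z m * (tᴴ * F.z l * t) = (F.z m * tᴴ) * (F.z l * t) by simp only [Matrix.mul_assoc],
    tr_mul_comm]
  simp only [Matrix.mul_assoc]

theorem EA_le (y : Mat n n) : ‖EA VV y‖ ^ 2 ≤ ‖y‖ ^ 2 := by
  rw [EA_norm]; linarith [sq_nonneg ‖y - EA VV y‖]

theorem wQ_le (h : F.OK VV) (ht : IsUni t) (l m : F.Λ) : F.w m * Q F t l m ≤ F.nu t l m := by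
  have key : ∀ i, F.w m * ∑ j with F.lab j = m, cf F t i j ≤
      tr ((t * F.z m * tᴴ) * (F.a i * (F.a i)ᴴ)) := by
    intro i
    have e1 : F.w m * ∑ j with F.lab j = m, cf F t i j = ∑ j with F.lab j = m,
        F.w (F.lab j) * ‖trace ((F.a j)ᴴ * (F.z m * (tᴴ * F.a i * t)))‖ ^ 2 := by
      rw [Finset.mul_sum]
      refine Finset.sum_congr rfl fun j hj => ?_
      have hj' : F.lab j = m := (Finset.mem_filter.1 hj).2
      have e : (F.a j)ᴴ * F.z m = (F.a j)ᴴ := by
        have := congrArg conjTranspose (h.za j)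
        rwa [conjTranspose_mul, (h.zp _).1, hj'] at this
      rw [hj', ← Matrix.mul_assoc (F.a j)ᴴ, e, cf]
    have e2 : ∑ j with F.lab j = m,
        F.w (F.lab j) * ‖trace ((F.a j)ᴴ * (F.z m * (tᴴ * F.a i * t)))‖ ^ 2 ≤
        ∑ j, F.w (F.lab j) * ‖trace ((F.a j)ᴴ * (F.z m * (tᴴ * F.a i * t)))‖ ^ 2 :=
      Finset.sum_le_sum_of_subset_of_nonneg (Finset.filter_subset _ _)
        fun j _ _ => mul_nonneg (h.wpos _).le (sq_nonneg _)
    rw [e1]
    refine e2.trans ?_
    rw [← h.par]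
    refine (EA_le _).trans (le_of_eq ?_)
    rw [show F.z m * (tᴴ * F.a i * t) = (F.z m * tᴴ * F.a i) * t by simp only [Matrix.mul_assoc],
      ht.mul_norm, norm_mul_sq']
    congr 2
    rw [conjTranspose_mul, conjTranspose_conjTranspose, (h.zp m).1, Matrix.mul_assoc,
      ← Matrix.mul_assoc (F.z m), (h.zp m).2, Matrix.mul_assoc]
  unfold Q
  rw [Finset.mul_sum]
  refine (Finset.sum_le_sum fun i _ => key i).trans (le_of_eq ?_)
  rw [← tr_sum, ← Matrix.mul_sum, h.s1, tr_mul_comm, Fr.nu]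

theorem wQ_le' (h : F.OK VV) (ht : IsUni t) (l m : F.Λ) : F.w l * Q F t l m ≤ F.nu t l m := by
  rw [← Q_symm, ← nu_symm]
  exact wQ_le h ht.adj m l

theorem sum_aa (h : F.OK VV) : ∑ i, F.a i * (F.a i)ᴴ = 1 := by
  rw [← h.zs, ← Finset.sum_fiberwise Finset.univ F.lab]
  exact Finset.sum_congr rfl fun l _ => h.s1 l

theorem tr_one' : tr (1 : Mat n n) = Fintype.card n := by simp [tr]

theorem sum_norm_a (h : F.OK VV) : ∑ i, ‖F.a i‖ ^ 2 = Fintype.card n := by
  simp only [norm_sq_eq_tr']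
  rw [← tr_sum, sum_aa h, tr_one']

theorem sum_wQ (h : F.OK VV) (ht : IsUni t) :
    ∑ l, ∑ m, F.w m * Q F t l m = Fintype.card n - F.err VV tᴴ := by
  have e1 : ∀ i, ∑ m, F.w m * ∑ j with F.lab j = m, cf F t i j =
      ‖F.a i‖ ^ 2 - ‖tᴴ * F.a i * tᴴᴴ - EA VV (tᴴ * F.a i * tᴴᴴ)‖ ^ 2 := by
    intro i
    have e : ‖F.a i‖ = ‖tᴴ * F.a i * t‖ := by rw [ht.mul_norm, ht.adj.norm_mul]
    rw [conjTranspose_conjTranspose, e, ← EA_norm, h.par,
      ← Finset.sum_fiberwise Finset.univ F.lab]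
    refine Finset.sum_congr rfl fun m _ => ?_
    rw [Finset.mul_sum]
    refine Finset.sum_congr rfl fun j hj => ?_
    rw [(Finset.mem_filter.1 hj).2, cf]
  have e2 : ∀ l, ∑ m, F.w m * Q F t l m =
      ∑ i with F.lab i = l, ∑ m, F.w m * ∑ j with F.lab j = m, cf F t i j := by
    intro l
    rw [Finset.sum_comm]
    refine Finset.sum_congr rfl fun m _ => ?_
    rw [Q, Finset.mul_sum]
  simp only [e2, e1]
  rw [Finset.sum_fiberwise Finset.univ F.lab, Finset.sum_sub_distrib, sum_norm_a h, Fr.err]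

theorem sum_wQ' (h : F.OK VV) (ht : IsUni t) :
    ∑ l, ∑ m, F.w l * Q F t l m = Fintype.card n - F.err VV t := by
  have := sum_wQ h ht.adj
  rw [conjTranspose_conjTranspose, Finset.sum_comm] at this
  rw [← this]
  exact Finset.sum_congr rfl fun l _ => Finset.sum_congr rfl fun m _ => by rw [Q_symm]

theorem sum_nu (h : F.OK VV) (ht : IsUni t) : ∑ l, ∑ m, F.nu t l m = Fintype.card n := by
  have e : ∀ l, ∑ m, F.nu t l m = tr (F.z l) := by
    intro l
    unfold Fr.nu
    rw [← tr_sum, ← Matrix.mul_sum, ← Matrix.sum_mul, ← Matrix.mul_sum, h.zs, Matrix.mul_one,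
      ht.2, Matrix.mul_one]
  simp only [e]
  rw [← tr_sum, h.zs, tr_one']

theorem partA (h : F.OK VV) (ht : IsUni t) :
    ∑ l, ∑ m, F.nu t l m * max (1 - F.w m / F.w l) 0 ≤ F.err VV tᴴ := by
  have key : ∀ l m, F.nu t l m * max (1 - F.w m / F.w l) 0 ≤ F.nu t l m - F.w m * Q F t l m := by
    intro l m
    have h1 := wQ_le h ht l m
    have h2 := wQ_le' h ht l m
    have hl := h.wpos l
    have hm := h.wpos m
    rcases le_total (1 - F.w m / F.w l) 0 with hc | hc
    · rw [max_eq_right hc]; linarith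
    · rw [max_eq_left hc]
      have h3 : F.w m * Q F t l m = F.w m / F.w l * (F.w l * Q F t l m) := by
        field_simp
      have h4 := mul_le_mul_of_nonneg_left h2 (div_pos hm hl).le
      rw [h3]; nlinarith
  have := Finset.sum_le_sum fun l (_ : l ∈ Finset.univ) =>
    Finset.sum_le_sum fun m (_ : m ∈ Finset.univ) => key l m
  simp only [Finset.sum_sub_distrib] at this
  rw [sum_nu h ht, sum_wQ h ht] at this
  linarith

theorem partB (h : F.OK VV) (ht : IsUni t) :
    F.err VV t ≤ F.err VV tᴴ + ∑ l, ∑ m, F.nu t l m * max (1 - F.w l / F.w m) 0 := by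
  have key : ∀ l m, F.w m * Q F t l m - F.w l * Q F t l m ≤
      F.nu t l m * max (1 - F.w l / F.w m) 0 := by
    intro l m
    have h1 := wQ_le h ht l m
    have hm := h.wpos m
    have h0 : 0 ≤ F.w m * Q F t l m := mul_nonneg hm.le (Q_nonneg F t l m)
    have h3 : F.w m * Q F t l m - F.w l * Q F t l m =
        F.w m * Q F t l m * (1 - F.w l / F.w m) := by
      field_simp
    rw [h3]
    exact (mul_le_mul_of_nonneg_left (le_max_left _ 0) h0).trans
      (mul_le_mul_of_nonneg_right h1 (le_max_right _ _))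
  have := Finset.sum_le_sum fun l (_ : l ∈ Finset.univ) =>
    Finset.sum_le_sum fun m (_ : m ∈ Finset.univ) => key l m
  simp only [Finset.sum_sub_distrib] at this
  rw [sum_wQ h ht, sum_wQ' h ht] at this
  linarith

theorem partC (h : F.OK VV) (ht : IsUni t) (v : Mat n n) (hv : Ctr v)
    (hc : ∀ x ∈ Com VV, x * v = v * x) :
    ∃ vb : Mat n n, Ctr vb ∧ (∀ x ∈ Com VV, t * x * tᴴ * vb = vb * (t * x * tᴴ)) ∧
      ‖v - vb‖ ^ 2 ≤ 4 * F.err VV t := by
  set b : F.I → Mat n n := fun i => t * F.a i * tᴴ with hb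
  have hbb : ∑ i, b i * (b i)ᴴ = 1 := by
    have e : ∀ i, b i * (b i)ᴴ = t * (F.a i * (F.a i)ᴴ) * tᴴ := by
      intro i
      simp only [hb, conjTranspose_mul, conjTranspose_conjTranspose, Matrix.mul_assoc]
      rw [← Matrix.mul_assoc tᴴ t, ht.1, Matrix.one_mul]
    simp only [e]
    rw [← Matrix.sum_mul, ← Matrix.mul_sum, sum_aa h, Matrix.mul_one, ht.2]
  have hle : ∑ i, b i * (b i)ᴴ ≤ (1 : ℝ) • (1 : Mat n n) := by rw [hbb, one_smul]
  refine ⟨∑ i, b i * v * (b i)ᴴ, ?_, ?_, ?_⟩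
  · refine ctr_of_norm fun y => ?_
    refine (pow_le_pow_iff_left₀ (norm_nonneg _) (norm_nonneg _) two_ne_zero).1 ?_
    rw [Matrix.sum_mul]
    simp only [Matrix.mul_assoc]
    refine (norm_sum_mul_sq_le Finset.univ zero_le_one hle _).trans ?_
    rw [one_mul]
    refine (Finset.sum_le_sum fun i _ => hv.norm_mul_sq_le _).trans ?_
    have := sum_mul_norm_sq_le (c := 1) Finset.univ (a := fun i => (b i)ᴴ)
      (by simpa only [conjTranspose_conjTranspose] using hle) y
    rwa [one_mul] at this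
  · intro x hx
    have e : ∑ i, b i * v * (b i)ᴴ = t * (∑ i, F.a i * (tᴴ * v * t) * (F.a i)ᴴ) * tᴴ := by
      rw [Matrix.mul_sum, Matrix.sum_mul]
      refine Finset.sum_congr rfl fun i _ => ?_
      simp only [hb, conjTranspose_mul, conjTranspose_conjTranspose, Matrix.mul_assoc]
    rw [e]
    have hcm := h.cm (tᴴ * v * t) x hx
    set P := ∑ i, F.a i * (tᴴ * v * t) * (F.a i)ᴴ
    calc t * x * tᴴ * (t * P * tᴴ) = t * (x * (tᴴ * t) * P) * tᴴ := by
          simp only [Matrix.mul_assoc]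
      _ = t * (P * (tᴴ * t) * x) * tᴴ := by rw [ht.1, Matrix.mul_one, Matrix.mul_one, hcm]
      _ = t * P * tᴴ * (t * x * tᴴ) := by simp only [Matrix.mul_assoc]
  · have e : v - ∑ i, b i * v * (b i)ᴴ = ∑ i, (v * b i - b i * v) * (b i)ᴴ := by
      simp only [Matrix.sub_mul, Finset.sum_sub_distrib]
      congr 1
      simp only [Matrix.mul_assoc]
      rw [← Matrix.mul_sum, hbb, Matrix.mul_one]
    rw [e]
    refine (norm_sum_mul_adj_sq_le Finset.univ zero_le_one hle _).trans ?_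
    rw [one_mul, Fr.err, Finset.mul_sum]
    refine Finset.sum_le_sum fun i _ => ?_
    have e2 : v * b i - b i * v = v * (b i - EA VV (b i)) - (b i - EA VV (b i)) * v := by
      rw [Matrix.mul_sub, Matrix.sub_mul, hc _ (EA_mem VV (b i))]
      abel
    have h3 := norm_comm_le hv hv (b i - EA VV (b i))
    rw [e2]
    have h4 := pow_le_pow_left₀ (norm_nonneg _) h3 2
    rw [mul_pow] at h4
    norm_num at h4
    exact h4

end TwoP

theorem two : S_Two := fun n S _ _ _ VV F t h ht =>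
  ⟨TwoP.partA h ht, TwoP.partB h ht, TwoP.partC h ht⟩

end Pool.Agent.P.MP_7f9919_an.NH
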