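import Mathlib

/-! Elementary units `1 + u r v` of a ring and the groups generated by seven of them. -/

set_option autoImplicit false

namespace Pool.Agent.P.MP_7f9919_an.G73

open scoped commutatorElement

variable {A : Type} [Ring A]

open Classical in
/-- The unit `1 + u r v`, when `v u = 0`. -/
noncomputable def el (u v r : A) : Aˣ :=
  if h : v * u = 0 then
    ⟨1 + u * r * v, 1 - u * r * v,
      by
        have : u * r * v * (u * r * v) = 0 := by
          calc u * r * v * (u * r * v) = u * r * (v * u) * r * v := by noncomm_ring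
            _ = 0 := by rw [h]; simp
        rw [add_mul, mul_sub, mul_sub, this]; simp,
      by
        have : u * r * v * (u * r * v) = 0 := by
          calc u * r * v * (u * r * v) = u * r * (v * u) * r * v := by noncomm_ring
            _ = 0 := by rw [h]; simp
        rw [sub_mul, mul_add, mul_add, this]; simp⟩
  else 1

theorem el_val {u v : A} (h : v * u = 0) (r : A) : (el u v r : A) = 1 + u * r * v := by
  simp [el, h]

theorem el_inv_val {u v : A} (h : v * u = 0) (r : A) : ((el u v r)⁻¹ : Aˣ) = 1 - u * r * v := by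
  simp [el, h]

theorem zero_left {u v : A} (h : v * u = 0) (x : A) : v * (u * x) = 0 := by
  rw [← mul_assoc, h, zero_mul]

theorem one_left {u v : A} (h : v * u = 1) (x : A) : v * (u * x) = x := by
  rw [← mul_assoc, h, one_mul]

theorem el_add {u v : A} (h : v * u = 0) (r r' : A) :
    el u v (r + r') = el u v r * el u v r' := by
  ext
  simp only [Units.val_mul, el_val h, mul_add, add_mul, mul_assoc, zero_left h, one_mul, mul_one,
    mul_zero]
  abel

theorem el_zero (u v : A) : el u v 0 = 1 := by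
  by_cases h : v * u = 0
  · ext; simp [el_val h]
  · simp [el, h]

theorem el_neg {u v : A} (h : v * u = 0) (r : A) : el u v (-r) = (el u v r)⁻¹ := by
  rw [eq_inv_iff_mul_eq_one, ← el_add h, neg_add_cancel, el_zero]

theorem el_pow {u v : A} (h : v * u = 0) (r : A) (n : ℕ) : el u v r ^ n = el u v (n * r) := by
  induction n with
  | zero => simp [el_zero]
  | succ n ih => rw [pow_succ, ih, ← el_add h]; congr 1; push_cast; noncomm_ring

theorem el_commute {u v u' v' : A} (h : v * u = 0) (h' : v' * u' = 0) (h1 : v * u' = 0)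
    (h2 : v' * u = 0) (r r' : A) : Commute (el u v r) (el u' v' r') := by
  ext
  simp only [Units.val_mul, el_val h, el_val h', mul_add, add_mul, mul_assoc, zero_left h1,
    zero_left h2, one_mul, mul_one, mul_zero]
  abel

theorem el_comm {u v u' v' : A} (h : v * u = 0) (h' : v' * u' = 0) (h1 : v * u' = 1)
    (h2 : v' * u = 0) (r r' : A) : ⁅el u v r, el u' v' r'⁆ = el u v' (r * r') := by
  ext
  simp only [commutatorElement_def, Units.val_mul, el_val h, el_val h', el_val h2, el_inv_val h,
    el_inv_val h', mul_add, add_mul, mul_sub, sub_mul, mul_assoc, one_left h1, zero_left h,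
    zero_left h', zero_left h2, one_mul, mul_one, mul_zero]
  abel

theorem el_absorb {u v : A} (h : v * u = 0) (c c' r : A) :
    el (u * c) (c' * v) r = el u v (c * r * c') := by
  have h' : c' * v * (u * c) = 0 := by rw [mul_assoc, zero_left h, mul_zero]
  ext
  simp only [el_val h, el_val h', mul_assoc]

theorem el_conj {u v : A} (h : v * u = 0) (g : Aˣ) (r : A) :
    g * el u v r * g⁻¹ = el (g * u) (v * (g⁻¹ : Aˣ)) r := by
  have h' : v * (g⁻¹ : Aˣ) * (g * u) = 0 := by
    rw [mul_assoc, Units.inv_mul_cancel_left, h]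
  ext
  simp only [Units.val_mul, el_val h, el_val h', mul_add, add_mul, mul_assoc, one_mul,
    Units.mul_inv]

/-- Three orthogonal pairs. -/
def Orth (u v : Fin 3 → A) : Prop := ∀ i j, v i * u j = if i = j then 1 else 0

theorem Orth.one {u v : Fin 3 → A} (h : Orth u v) (i : Fin 3) : v i * u i = 1 := by
  rw [h i i, if_pos rfl]

theorem Orth.zero {u v : Fin 3 → A} (h : Orth u v) {i j : Fin 3} (hij : i ≠ j) :
    v i * u j = 0 := by
  rw [h i j, if_neg hij]

/-- The seven generators attached to a triple and four ring elements. -/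
noncomputable def tup (c : Fin 4 → A) (u v : Fin 3 → A) : Fin 7 → Aˣ :=
  ![el (u 0) (v 1) 1, el (u 1) (v 2) 1, el (u 2) (v 0) 1, el (u 0) (v 1) (c 0),
    el (u 0) (v 1) (c 1), el (u 0) (v 1) (c 2), el (u 0) (v 1) (c 3)]

/-- Row index of a generator. -/
def ro : Fin 7 → Fin 3 := ![0, 1, 2, 0, 0, 0, 0]

/-- Coefficient of a generator. -/
def cf (c : Fin 4 → A) : Fin 7 → A := ![1, 1, 1, c 0, c 1, c 2, c 3]

theorem tup_eq (c : Fin 4 → A) (u v : Fin 3 → A) (s : Fin 7) :
    tup c u v s = el (u (ro s)) (v (ro s + 1)) (cf c s) := by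
  fin_cases s <;> rfl

theorem cf_mem (c : Fin 4 → A) (s : Fin 7) : cf c s ∈ Subring.closure (Set.range c) := by
  fin_cases s
  exacts [one_mem _, one_mem _, one_mem _, Subring.subset_closure ⟨0, rfl⟩,
    Subring.subset_closure ⟨1, rfl⟩, Subring.subset_closure ⟨2, rfl⟩,
    Subring.subset_closure ⟨3, rfl⟩]

theorem tup_pow {u v : Fin 3 → A} (h : Orth u v) (c : Fin 4 → A) (p : ℕ) (hp : (p : A) = 0)
    (s : Fin 7) : tup c u v s ^ p = 1 := by
  rw [tup_eq, el_pow (h.zero (by generalize ro s = i; revert i; decide)), hp, zero_mul, el_zero]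

theorem cyc_comm {u v : Fin 3 → A} (h : Orth u v) (i j : Fin 3) (r r' : A) :
    Commute ⁅el (u i) (v (i + 1)) r, el (u j) (v (j + 1)) r'⁆ (el (u i) (v (i + 1)) r) ∧
      Commute ⁅el (u i) (v (i + 1)) r, el (u j) (v (j + 1)) r'⁆ (el (u j) (v (j + 1)) r') := by
  have n1 : ∀ i : Fin 3, i + 1 ≠ i := by decide
  have n2 : ∀ i : Fin 3, i + 1 + 1 ≠ i := by decide
  have n3 : ∀ i : Fin 3, i + 1 + 1 ≠ i + 1 := by decide
  have key : ∀ (i : Fin 3) (r r' : A),
      Commute ⁅el (u i) (v (i + 1)) r, el (u (i + 1)) (v (i + 1 + 1)) r'⁆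
        (el (u i) (v (i + 1)) r) ∧
      Commute ⁅el (u i) (v (i + 1)) r, el (u (i + 1)) (v (i + 1 + 1)) r'⁆
        (el (u (i + 1)) (v (i + 1 + 1)) r') := by
    intro i r r'
    rw [el_comm (h.zero (n1 i)) (h.zero (n3 i)) (h.one _) (h.zero (n2 i))]
    exact ⟨el_commute (h.zero (n2 i)) (h.zero (n1 i)) (h.zero (n2 i)) (h.zero (n1 i)) _ _,
      el_commute (h.zero (n2 i)) (h.zero (n3 i)) (h.zero (n3 i)) (h.zero (n2 i)) _ _⟩
  have tri : ∀ i j : Fin 3, j = i ∨ j = i + 1 ∨ i = j + 1 := by decide
  rcases tri i j with rfl | rfl | rfl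
  · have : ⁅el (u j) (v (j + 1)) r, el (u j) (v (j + 1)) r'⁆ = 1 :=
      commutatorElement_eq_one_iff_commute.2
        (el_commute (h.zero (n1 j)) (h.zero (n1 j)) (h.zero (n1 j)) (h.zero (n1 j)) _ _)
    rw [this]
    exact ⟨Commute.one_left _, Commute.one_left _⟩
  · exact key i r r'
  · rw [← commutatorElement_inv]
    exact ⟨(key j r' r).2.inv_left, (key j r' r).1.inv_left⟩

theorem tup_comm {u v : Fin 3 → A} (h : Orth u v) (c : Fin 4 → A) (s s' : Fin 7) :
    Commute ⁅tup c u v s, tup c u v s'⁆ (tup c u v s) ∧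
      Commute ⁅tup c u v s, tup c u v s'⁆ (tup c u v s') := by
  rw [tup_eq, tup_eq]
  exact cyc_comm h _ _ _ _

theorem third (i j : Fin 3) : ∃ k : Fin 3, k ≠ i ∧ k ≠ j := by revert i j; decide

theorem comm_mem {G : Type} [Group G] {K : Subgroup G} {a b : G} (ha : a ∈ K) (hb : b ∈ K) :
    ⁅a, b⁆ ∈ K := by
  rw [commutatorElement_def]
  exact mul_mem (mul_mem (mul_mem ha hb) (inv_mem ha)) (inv_mem hb)

theorem Orth.comm {u v : Fin 3 → A} (h : Orth u v) {i j k : Fin 3} (hij : i ≠ j) (hjk : j ≠ k)
    (hik : i ≠ k) (r r' : A) : ⁅el (u i) (v j) r, el (u j) (v k) r'⁆ = el (u i) (v k) (r * r') :=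
  el_comm (h.zero hij.symm) (h.zero hjk.symm) (h.one j) (h.zero hik.symm) r r'

theorem spread {u v : Fin 3 → A} (h : Orth u v) {K : Subgroup Aˣ}
    (h1 : ∀ i j, i ≠ j → el (u i) (v j) 1 ∈ K) {r : A} (hr : el (u 0) (v 1) r ∈ K) :
    ∀ i j, i ≠ j → el (u i) (v j) r ∈ K := by
  have L : ∀ i j k : Fin 3, i ≠ j → j ≠ k → i ≠ k → el (u j) (v k) r ∈ K →
      el (u i) (v k) r ∈ K := fun i j k hij hjk hik hm => by
    have := comm_mem (h1 i j hij) hm
    rwa [h.comm hij hjk hik, one_mul] at this
  have R : ∀ i j k : Fin 3, i ≠ j → j ≠ k → i ≠ k → el (u i) (v j) r ∈ K →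
      el (u i) (v k) r ∈ K := fun i j k hij hjk hik hm => by
    have := comm_mem hm (h1 j k hjk)
    rwa [h.comm hij hjk hik, mul_one] at this
  have h02 := R 0 1 2 (by decide) (by decide) (by decide) hr
  have h21 := L 2 0 1 (by decide) (by decide) (by decide) hr
  have h12 := L 1 0 2 (by decide) (by decide) (by decide) h02
  have h20 := R 2 1 0 (by decide) (by decide) (by decide) h21
  have h10 := R 1 2 0 (by decide) (by decide) (by decide) h12
  intro i j hij
  fin_cases i <;> fin_cases j <;> first | exact absurd rfl hij | assumption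

theorem el_mem {u v : Fin 3 → A} (h : Orth u v) (c : Fin 4 → A) {r : A}
    (hr : r ∈ Subring.closure (Set.range c)) :
    ∀ i j, i ≠ j → el (u i) (v j) r ∈ Subgroup.closure (Set.range (tup c u v)) := by
  set K := Subgroup.closure (Set.range (tup c u v))
  have g : ∀ s, tup c u v s ∈ K := fun s => Subgroup.subset_closure ⟨s, rfl⟩
  have h01 : el (u 0) (v 1) 1 ∈ K := g 0
  have h12 : el (u 1) (v 2) 1 ∈ K := g 1
  have h20 : el (u 2) (v 0) 1 ∈ K := g 2
  have h02 := comm_mem h01 h12
  have h10 := comm_mem h12 h20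
  have h21 := comm_mem h20 h01
  rw [h.comm (by decide) (by decide) (by decide), one_mul] at h02 h10 h21
  have h1 : ∀ i j, i ≠ j → el (u i) (v j) 1 ∈ K := by
    intro i j hij
    fin_cases i <;> fin_cases j <;> first | exact absurd rfl hij | assumption
  induction hr using Subring.closure_induction with
  | mem x hx =>
    obtain ⟨i, rfl⟩ := hx
    refine spread h h1 ?_
    fin_cases i
    exacts [g 3, g 4, g 5, g 6]
  | zero => intro i j _; rw [el_zero]; exact one_mem _
  | one => exact h1
  | add x y _ _ hx hy =>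
    intro i j hij
    rw [el_add (h.zero hij.symm)]
    exact mul_mem (hx i j hij) (hy i j hij)
  | neg x _ hx =>
    intro i j hij
    rw [el_neg (h.zero hij.symm)]
    exact inv_mem (hx i j hij)
  | mul x y _ _ hx hy =>
    intro i j hij
    obtain ⟨k, hki, hkj⟩ := third i j
    rw [← h.comm hki.symm hkj hij]
    exact comm_mem (hx i k hki.symm) (hy k j hkj)

theorem el_mem' {u v : Fin 3 → A} (h : Orth u v) (c : Fin 4 → A) {r a b : A}
    (hr : r ∈ Subring.closure (Set.range c)) (ha : a ∈ Subring.closure (Set.range c))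
    (hb : b ∈ Subring.closure (Set.range c)) (i j : Fin 3) (hij : i = j → b * a = 0) :
    el (u i * a) (b * v j) r ∈ Subgroup.closure (Set.range (tup c u v)) := by
  have main : ∀ {r a b : A}, r ∈ Subring.closure (Set.range c) →
      a ∈ Subring.closure (Set.range c) → b ∈ Subring.closure (Set.range c) → ∀ i j : Fin 3,
      i ≠ j → el (u i * a) (b * v j) r ∈ Subgroup.closure (Set.range (tup c u v)) := by
    intro r a b hr ha hb i j hij
    rw [el_absorb (h.zero hij.symm)]
    exact el_mem h c (mul_mem (mul_mem ha hr) hb) i j hij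
  by_cases e : i = j
  · subst e
    obtain ⟨k, hk, -⟩ := third i i
    have h1 := main hr ha (one_mem _) i k hk.symm
    have h2 := main (one_mem _) (one_mem _) hb k i hk
    have := comm_mem h1 h2
    rwa [el_comm, mul_one] at this
    · rw [one_mul, ← mul_assoc, h.zero hk, zero_mul]
    · rw [mul_one, mul_assoc, h.zero hk.symm, mul_zero]
    · rw [mul_one, one_mul, h.one]
    · rw [mul_assoc, one_left (h.one i), hij rfl]
  · exact main hr ha hb i j e

/-- The signed swap of two orthogonal pairs. -/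
noncomputable def sw (u v u' v' : A) : Aˣ := el u v' 1 * el u' v (-1) * el u v' 1

theorem sw_val {u v u' v' : A} (h1 : v * u = 1) (h2 : v' * u' = 1) (h3 : v * u' = 0)
    (h4 : v' * u = 0) : (sw u v u' v' : A) = 1 - u * v - u' * v' + u * v' - u' * v := by
  simp only [sw, Units.val_mul, el_val h3, el_val h4, mul_add, add_mul, mul_assoc, one_left h1,
    one_left h2, one_mul, mul_one, mul_neg, neg_mul, zero_left h4, mul_zero]
  abel

theorem sw_inv_val {u v u' v' : A} (h1 : v * u = 1) (h2 : v' * u' = 1) (h3 : v * u' = 0)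
    (h4 : v' * u = 0) : ((sw u v u' v')⁻¹ : Aˣ) = 1 - u * v - u' * v' - u * v' + u' * v := by
  simp only [sw, mul_inv_rev, Units.val_mul, el_inv_val h3, el_inv_val h4, mul_sub, sub_mul,
    mul_assoc, one_left h1, one_left h2, one_mul, mul_one, mul_neg, neg_mul, zero_left h4,
    mul_zero]
  abel

end Pool.Agent.P.MP_7f9919_an.G73
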