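import Pool.Agent.P.MP_7f9919_an.G73.Elem

/-! The compression configuration in the unit group of a ring with Leavitt relations. -/

set_option autoImplicit false

namespace Pool.Agent.P.MP_7f9919_an.G73

open scoped commutatorElement
open Subgroup Set

/-- Seven elements of order dividing 101 whose commutators are central in each pair. -/
def Good {G : Type} [Group G] (x : Fin 7 → G) : Prop :=
  (∀ s, x s ^ 101 = 1) ∧ ∀ s s', Commute ⁅x s, x s'⁆ (x s) ∧ Commute ⁅x s, x s'⁆ (x s')

/-- The compression configuration. -/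
structure Conf {G : Type} [Group G] (x y : Fin 7 → G) (t0 t1 a c : G) : Prop where
  gx : Good x
  gy : Good y
  c0 : ∀ s, t0 * x s * t0⁻¹ ∈ closure (range x)
  c1 : ∀ s, t1 * x s * t1⁻¹ ∈ closure (range x)
  xy : ∀ s, x s ∈ closure (range y)
  t0y : t0 ∈ closure (range y)
  t1y : t1 ∈ closure (range y)
  ay : a ∈ closure (range y)
  yx : ∀ s, y s ∈ closure (insert t0 (insert t1 (range x)))
  ax : ∀ s, Commute a (x s)
  cx : c ∈ closure (range x)
  ne : ⁅t0 * a * t0⁻¹, c⁆ ≠ 1

variable {A : Type} [Ring A]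

/-- Leavitt relations. -/
structure Lea (s0 s1 t0 t1 : A) : Prop where
  h00 : t0 * s0 = 1
  h11 : t1 * s1 = 1
  h01 : t0 * s1 = 0
  h10 : t1 * s0 = 0
  sum : s0 * t0 + s1 * t1 = 1

theorem mem_of_conj {G : Type} [Group G] {K : Subgroup G} {t g : G} (ht : t ∈ K)
    (h : t * g * t⁻¹ ∈ K) : g ∈ K := by
  have : g = t⁻¹ * (t * g * t⁻¹) * t := by group
  rw [this]
  exact mul_mem (mul_mem (inv_mem ht) h) ht

theorem conf_of_lea [Nontrivial A] (hp : ((101 : ℕ) : A) = 0) {s0 s1 t0 t1 : A}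
    (L : Lea s0 s1 t0 t1) : ∃ (x y : Fin 7 → Aˣ) (g0 g1 a c : Aˣ), Conf x y g0 g1 a c := by
  obtain ⟨h00, h11, h01, h10, hs⟩ := L
  have k00 := one_left h00
  have k11 := one_left h11
  have k01 := zero_left h01
  have k10 := zero_left h10
  let c : Fin 4 → A := ![s0, s1, t0, t1]
  have m1 : (1 : A) ∈ Subring.closure (range c) := one_mem _
  have ms0 : s0 ∈ Subring.closure (range c) := Subring.subset_closure ⟨0, rfl⟩
  have ms1 : s1 ∈ Subring.closure (range c) := Subring.subset_closure ⟨1, rfl⟩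
  have mt0 : t0 ∈ Subring.closure (range c) := Subring.subset_closure ⟨2, rfl⟩
  have mt1 : t1 ∈ Subring.closure (range c) := Subring.subset_closure ⟨3, rfl⟩
  let u : Fin 3 → A := ![s0 * s0, s0 * s1, s1 * s0]
  let v : Fin 3 → A := ![t0 * t0, t1 * t0, t0 * t1]
  let U : Fin 3 → A := ![s0, s1 * s0, s1 * s1]
  let V : Fin 3 → A := ![t0, t0 * t1, t1 * t1]
  have huv : Orth u v := by
    intro i j
    fin_cases i <;> fin_cases j <;> simp [u, v, mul_assoc, k00, k11, k01, k10, h00, h11, h01, h10]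
  have hUV : Orth U V := by
    intro i j
    fin_cases i <;> fin_cases j <;> simp [U, V, mul_assoc, k11, k01, h00, h11, h01, h10]
  let w : Aˣ := sw s0 t0 (s1 * s1) (t1 * t1)
  let w0 : Aˣ := sw (s0 * s0) (t0 * t0) (s1 * s1) (t1 * t1)
  let w1 : Aˣ := sw (s0 * s1) (t1 * t0) (s1 * s1) (t1 * t1)
  have e1 : t1 * t1 * (s1 * s1) = 1 := by simp [mul_assoc, k11, h11]
  have e2 : t0 * (s1 * s1) = 0 := by simp [k01]
  have e3 : t1 * t1 * s0 = 0 := by simp [mul_assoc, h10]
  have e4 : t0 * t0 * (s0 * s0) = 1 := by simp [mul_assoc, k00, h00]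
  have e5 : t0 * t0 * (s1 * s1) = 0 := by simp [mul_assoc, k01]
  have e6 : t1 * t1 * (s0 * s0) = 0 := by simp [mul_assoc, k10]
  have e7 : t1 * t0 * (s0 * s1) = 1 := by simp [mul_assoc, k00, h11]
  have e8 : t1 * t0 * (s1 * s1) = 0 := by simp [mul_assoc, k01]
  have e9 : t1 * t1 * (s0 * s1) = 0 := by simp [mul_assoc, k10]
  have wv := sw_val h00 e1 e2 e3
  have wi := sw_inv_val h00 e1 e2 e3
  have w0v := sw_val e4 e1 e5 e6
  have w0i := sw_inv_val e4 e1 e5 e6
  have w1v := sw_val e7 e1 e8 e9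
  have w1i := sw_inv_val e7 e1 e8 e9
  -- action of the two compressing elements
  have a0 : ∀ r : A, ((w0 * w : Aˣ) : A) * (s0 * r) = -(s0 * s0 * r) := fun r => by
    simp only [Units.val_mul, w, w0, wv, w0v, mul_add, add_mul, mul_sub, sub_mul, mul_assoc, k00,
      k11, k01, k10, one_mul, mul_zero, zero_mul]
    abel
  have a1 : ∀ r : A, ((w1 * w : Aˣ) : A) * (s0 * r) = -(s0 * s1 * r) := fun r => by
    simp only [Units.val_mul, w, w1, wv, w1v, mul_add, add_mul, mul_sub, sub_mul, mul_assoc, k00,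
      k11, k01, k10, one_mul, mul_zero, zero_mul]
    abel
  have a0' : ((w0 * w : Aˣ) : A) * (s1 * s0) = s1 * s0 := by
    simp only [Units.val_mul, w, w0, wv, w0v, mul_add, add_mul, mul_sub, sub_mul, mul_assoc, k00,
      k11, k01, k10, h10, one_mul, mul_zero, zero_mul]
    abel
  have a1' : ((w1 * w : Aˣ) : A) * (s1 * s0) = s1 * s0 := by
    simp only [Units.val_mul, w, w1, wv, w1v, mul_add, add_mul, mul_sub, sub_mul, mul_assoc, k00,
      k11, k01, k10, h10, one_mul, mul_zero, zero_mul]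
    abel
  have a01 : ((w0 * w : Aˣ) : A) * (s1 * s1 * s1) = s0 * s1 := by
    simp only [Units.val_mul, w, w0, wv, w0v, mul_add, add_mul, mul_sub, sub_mul, mul_assoc, k00,
      k11, k01, k10, h01, one_mul, mul_zero, zero_mul]
    abel
  have a00 : ((w0 * w : Aˣ) : A) * (s1 * s1 * s0) = -(s1 * s1) := by
    simp only [Units.val_mul, w, w0, wv, w0v, mul_add, add_mul, mul_sub, sub_mul, mul_assoc, k00,
      k11, k01, k10, h00, one_mul, mul_one, mul_zero, zero_mul]
    abel
  have a10 : ((w1 * w : Aˣ) : A) * (s1 * s1 * s0) = s0 * s0 := by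
    simp only [Units.val_mul, w, w1, wv, w1v, mul_add, add_mul, mul_sub, sub_mul, mul_assoc, k00,
      k11, k01, k10, h10, one_mul, mul_zero, zero_mul]
    abel
  have b0 : ∀ r : A, r * t0 * ((w0 * w)⁻¹ : Aˣ) = -(r * (t0 * t0)) := fun r => by
    simp only [mul_inv_rev, Units.val_mul, w, w0, wi, w0i, mul_add, add_mul, mul_sub, sub_mul,
      mul_assoc, k00, k11, k01, k10, one_mul, mul_one, mul_zero]
    abel
  have b1 : ∀ r : A, r * t0 * ((w1 * w)⁻¹ : Aˣ) = -(r * (t1 * t0)) := fun r => by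
    simp only [mul_inv_rev, Units.val_mul, w, w1, wi, w1i, mul_add, add_mul, mul_sub, sub_mul,
      mul_assoc, k00, k11, k01, k10, one_mul, mul_one, mul_zero]
    abel
  have b0' : t0 * t1 * ((w0 * w)⁻¹ : Aˣ) = t0 * t1 := by
    simp only [mul_inv_rev, Units.val_mul, w, w0, wi, w0i, mul_add, add_mul, mul_sub, sub_mul,
      mul_assoc, k00, k11, k01, k10, one_mul, mul_one, mul_zero]
    abel
  have b1' : t0 * t1 * ((w1 * w)⁻¹ : Aˣ) = t0 * t1 := by
    simp only [mul_inv_rev, Units.val_mul, w, w1, wi, w1i, mul_add, add_mul, mul_sub, sub_mul,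
      mul_assoc, k00, k11, k01, k10, one_mul, mul_one, mul_zero]
    abel
  have b01 : t1 * (t1 * t1) * ((w0 * w)⁻¹ : Aˣ) = t1 * t0 := by
    simp only [mul_inv_rev, Units.val_mul, w, w0, wi, w0i, mul_add, add_mul, mul_sub, sub_mul,
      mul_assoc, k00, k11, k01, k10, one_mul, mul_one, mul_zero]
    abel
  have b10 : t0 * (t1 * t1) * ((w1 * w)⁻¹ : Aˣ) = t0 * t0 := by
    simp only [mul_inv_rev, Units.val_mul, w, w1, wi, w1i, mul_add, add_mul, mul_sub, sub_mul,
      mul_assoc, k00, k11, k01, k10, one_mul, mul_one, mul_zero]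
    abel
  have n1 : ∀ i : Fin 3, i + 1 ≠ i := by decide
  have X := fun {r a b : A} => el_mem' huv c (r := r) (a := a) (b := b)
  have Y := fun {r a b : A} => el_mem' hUV c (r := r) (a := a) (b := b)
  have hw : w ∈ closure (range (tup c U V)) :=
    mul_mem (mul_mem (el_mem hUV c m1 0 2 (by decide)) (el_mem hUV c (neg_mem m1) 2 0 (by decide)))
      (el_mem hUV c m1 0 2 (by decide))
  have hsw : ∀ {p q : A}, p ∈ Subring.closure (range c) → q ∈ Subring.closure (range c) →
      sw (s0 * p) (q * t0) (s1 * s1) (t1 * t1) ∈ closure (range (tup c U V)) := by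
    intro p q hp hq
    have y1 := Y m1 hp m1 0 2 (fun h => absurd h (by decide))
    have y2 := Y (neg_mem m1) m1 hq 2 0 (fun h => absurd h (by decide))
    rw [one_mul] at y1
    rw [mul_one] at y2
    exact mul_mem (mul_mem y1 y2) y1
  have conj : ∀ (g : Aˣ) (i0 : Fin 3), (∀ r : A, (g : A) * (s0 * r) = -(u i0 * r)) →
      (g : A) * (s1 * s0) = s1 * s0 → (∀ r : A, r * t0 * (g⁻¹ : Aˣ) = -(r * v i0)) →
      t0 * t1 * (g⁻¹ : Aˣ) = t0 * t1 →
      ∀ s, g * tup c u v s * g⁻¹ ∈ closure (range (tup c u v)) := by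
    intro g i0 p1 p2 q1 q2 s
    rw [tup_eq, el_conj (huv.zero (n1 _))]
    have hc := cf_mem c s
    generalize cf c s = r at hc
    have f0 : (g : A) * u 0 = u i0 * -s0 := by rw [mul_neg]; exact p1 s0
    have f1 : (g : A) * u 1 = u i0 * -s1 := by rw [mul_neg]; exact p1 s1
    have f2 : (g : A) * u 2 = u 2 * 1 := by rw [mul_one]; exact p2
    have g0 : v 0 * (g⁻¹ : Aˣ) = -t0 * v i0 := by rw [neg_mul]; exact q1 t0
    have g1 : v 1 * (g⁻¹ : Aˣ) = -t1 * v i0 := by rw [neg_mul]; exact q1 t1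
    have g2 : v 2 * (g⁻¹ : Aˣ) = 1 * v 2 := by rw [one_mul]; exact q2
    have i2 : i0 ≠ 2 := by
      rintro rfl
      have h3 := p1 s0
      have h4 : v 0 * (g⁻¹ : Aˣ) * (g * u 2) = 0 := by
        rw [mul_assoc, Units.inv_mul_cancel_left]; exact huv.zero (by decide)
      have h5 : v 1 * (g⁻¹ : Aˣ) * (g * u 2) = 0 := by
        rw [mul_assoc, Units.inv_mul_cancel_left]; exact huv.zero (by decide)
      rw [g0, f2, mul_one, mul_assoc, huv.one, mul_one, neg_eq_zero] at h4
      rw [h4, zero_mul] at h00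
      exact zero_ne_one h00
    generalize ro s = i
    fin_cases i
    · show el (g * u 0) (v 1 * (g⁻¹ : Aˣ)) r ∈ _
      rw [f0, g1]
      exact X hc (neg_mem ms0) (neg_mem mt1) _ _ fun _ => by simp [h10]
    · show el (g * u 1) (v 2 * (g⁻¹ : Aˣ)) r ∈ _
      rw [f1, g2]
      exact X hc (neg_mem ms1) m1 _ _ fun h => absurd h i2
    · show el (g * u 2) (v 0 * (g⁻¹ : Aˣ)) r ∈ _
      rw [f2, g0]
      exact X hc m1 (neg_mem mt0) _ _ fun h => absurd h.symm i2
  have za : t1 * (t1 * t1) * (s1 * s1 * s0) = 0 := by simp [mul_assoc, k11, h10]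
  refine ⟨tup c u v, tup c U V, w0 * w, w1 * w, el (s1 * s1 * s0) (t1 * (t1 * t1)) 1,
    el (u 1) (v 0) 1, ⟨tup_pow huv c 101 hp, tup_comm huv c⟩, ⟨tup_pow hUV c 101 hp,
    tup_comm hUV c⟩, conj _ 0 a0 a0' b0 b0', conj _ 1 a1 a1' b1 b1', fun s => ?_,
    mul_mem (hsw ms0 mt0) hw, mul_mem (hsw ms1 mt1) hw,
    Y m1 ms0 mt1 2 2 fun _ => h10, fun s => ?_, fun s => ?_, el_mem huv c m1 1 0 (by decide), ?_⟩
  · rw [tup_eq]
    have hc := cf_mem c s
    generalize cf c s = r at hc
    generalize ro s = i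
    fin_cases i
    · exact Y hc ms0 mt1 0 0 fun _ => h10
    · have := Y hc ms1 m1 0 1 fun h => absurd h (by decide)
      rwa [one_mul] at this
    · have := Y hc m1 mt0 1 0 fun h => absurd h (by decide)
      rwa [mul_one] at this
  · set K := closure (insert (w0 * w) (insert (w1 * w) (range (tup c u v))))
    have k0 : w0 * w ∈ K := subset_closure (mem_insert _ _)
    have k1 : w1 * w ∈ K := subset_closure (mem_insert_of_mem _ (mem_insert _ _))
    have kx : closure (range (tup c u v)) ≤ K :=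
      closure_mono fun g hg => mem_insert_of_mem _ (mem_insert_of_mem _ hg)
    have y01 : ∀ r ∈ Subring.closure (range c), el (U 0) (V 1) r ∈ K := fun r hr => by
      refine mem_of_conj k0 (kx ?_)
      rw [el_conj (hUV.zero (by decide))]
      have f : ((w0 * w : Aˣ) : A) * U 0 = u 0 * -1 := by
        have := a0 1
        rw [mul_one, mul_one] at this
        rw [mul_neg, mul_one]; exact this
      have g : V 1 * ((w0 * w)⁻¹ : Aˣ) = 1 * v 2 := by rw [one_mul]; exact b0'
      rw [f, g]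
      exact X hr (neg_mem m1) m1 _ _ fun h => absurd h (by decide)
    fin_cases s
    · exact y01 _ m1
    · show el (U 1) (V 2) 1 ∈ K
      have z12 : V 2 * U 1 = 0 := hUV.zero (by decide)
      have : (1 : A) = 1 * s0 * t0 + 1 * s1 * t1 := by rw [one_mul, one_mul, hs]
      rw [this, el_add z12, ← el_absorb z12, ← el_absorb z12, mul_one]
      refine mul_mem (mem_of_conj k1 (kx ?_)) (mem_of_conj k0 (kx ?_))
      · rw [el_conj (by rw [mul_assoc, z12, mul_zero])]
        have f : ((w1 * w : Aˣ) : A) * U 1 = u 2 := a1'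
        have g : t0 * V 2 * ((w1 * w)⁻¹ : Aˣ) = v 0 := b10
        rw [f, g]
        exact el_mem huv c ms0 2 0 (by decide)
      · rw [el_conj (by rw [mul_assoc, z12, mul_zero])]
        have f : ((w0 * w : Aˣ) : A) * U 1 = u 2 := a0'
        have g : t1 * V 2 * ((w0 * w)⁻¹ : Aˣ) = v 1 := b01
        rw [f, g]
        exact el_mem huv c ms1 2 1 (by decide)
    · show el (U 2) (V 0) 1 ∈ K
      have z20 : V 0 * U 2 = 0 := hUV.zero (by decide)
      have : (1 : A) = s0 * t0 * 1 + s1 * t1 * 1 := by rw [mul_one, mul_one, hs]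
      rw [this, el_add z20, ← el_absorb z20, ← el_absorb z20, one_mul]
      refine mul_mem (mem_of_conj k1 (kx ?_)) (mem_of_conj k0 (kx ?_))
      · rw [el_conj (by rw [← mul_assoc, z20, zero_mul])]
        have f : ((w1 * w : Aˣ) : A) * (U 2 * s0) = u 0 * 1 := by rw [mul_one]; exact a10
        have g : V 0 * ((w1 * w)⁻¹ : Aˣ) = -1 * v 1 := by
          have := b1 1
          rw [one_mul, one_mul] at this
          rw [neg_mul, one_mul]; exact this
        rw [f, g]
        exact X mt0 m1 (neg_mem m1) _ _ fun h => absurd h (by decide)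
      · rw [el_conj (by rw [← mul_assoc, z20, zero_mul])]
        have f : ((w0 * w : Aˣ) : A) * (U 2 * s1) = u 1 * 1 := by rw [mul_one]; exact a01
        have g : V 0 * ((w0 * w)⁻¹ : Aˣ) = -1 * v 0 := by
          have := b0 1
          rw [one_mul, one_mul] at this
          rw [neg_mul, one_mul]; exact this
        rw [f, g]
        exact X mt1 m1 (neg_mem m1) _ _ fun h => absurd h (by decide)
    · exact y01 _ ms0
    · exact y01 _ ms1
    · exact y01 _ mt0
    · exact y01 _ mt1
  · rw [tup_eq]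
    refine el_commute za (huv.zero (n1 _)) ?_ ?_ _ _
    · generalize ro s = i
      fin_cases i <;> simp [u, mul_assoc, k10, k11, h10]
    · generalize ro s + 1 = i
      fin_cases i <;> simp [v, mul_assoc, k01, k11]
  · rw [el_conj za, a00, b01]
    have q1 : t1 * t0 * -(s1 * s1) = 0 := by rw [mul_neg, e8, neg_zero]
    have q2 : v 0 * -(s1 * s1) = 0 := by rw [mul_neg]; exact neg_eq_zero.2 e5
    rw [el_comm (u' := u 1) q1 (huv.zero (by decide)) e7 q2]
    intro h
    have h2 := congrArg (fun g : Aˣ => t1 * t1 * ((g : A) - 1) * u 0) h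
    simp only [el_val q2, add_sub_cancel_left, mul_one, Units.val_one, sub_self, mul_zero,
      zero_mul] at h2
    have h3 : t1 * t1 * (-(s1 * s1) * v 0) * u 0 = -1 := by
      rw [neg_mul, mul_neg, neg_mul, ← mul_assoc, e1, one_mul, huv.one]
    rw [h3, neg_eq_zero] at h2
    exact one_ne_zero h2

/-- The ring of linear maps on sequences modulo 101 has the Leavitt relations. -/
theorem exists_lea : ∃ s0 s1 t0 t1 : Module.End (ZMod 101) (ℕ → ZMod 101), Lea s0 s1 t0 t1 := by
  let S : ℕ → Module.End (ZMod 101) (ℕ → ZMod 101) := fun i =>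
    { toFun := fun f m => if m % 2 = i then f (m / 2) else 0
      map_add' := fun f g => by funext m; by_cases h : m % 2 = i <;> simp [h]
      map_smul' := fun c f => by funext m; by_cases h : m % 2 = i <;> simp [h] }
  let T : ℕ → Module.End (ZMod 101) (ℕ → ZMod 101) := fun i =>
    { toFun := fun f m => f (2 * m + i)
      map_add' := fun f g => rfl
      map_smul' := fun c f => rfl }
  refine ⟨S 0, S 1, T 0, T 1, ?_, ?_, ?_, ?_, ?_⟩ <;> ext f m
  · simp [S, T]
  · have h1 : (2 * m + 1) % 2 = 1 := by omega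
    have h2 : (2 * m + 1) / 2 = m := by omega
    simp [S, T, h1, h2]
  · simp [S, T]
  · have h1 : (2 * m + 1) % 2 = 1 := by omega
    simp [S, T, h1]
  · rcases Nat.mod_two_eq_zero_or_one m with h | h
    · have h2 : 2 * (m / 2) = m := by omega
      simp [S, T, h, h2]
    · have h2 : 2 * (m / 2) + 1 = m := by omega
      simp [S, T, h, h2]

theorem mem_sub {G : Type} [Group G] {K : Subgroup G} {s : Set K} {g : K}
    (h : (g : G) ∈ closure (K.subtype '' s)) : g ∈ closure s := by
  rw [← MonoidHom.map_closure] at h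
  obtain ⟨g', hg, e⟩ := h
  rwa [← Subtype.ext e]

theorem Good.sub {G : Type} [Group G] {K : Subgroup G} {x : Fin 7 → K}
    (h : Good fun s => (x s : G)) : Good x :=
  ⟨fun s => Subtype.ext (h.1 s), fun s s' =>
    ⟨Subtype.ext (h.2 s s').1, Subtype.ext (h.2 s s').2⟩⟩

/-- A countable group with the compression configuration. -/
theorem exists_conf : ∃ (H : Type) (_ : Group H) (_ : Countable H) (x y : Fin 7 → H)
    (t0 t1 a c : H), Conf x y t0 t1 a c := by
  obtain ⟨s0, s1, t0, t1, L⟩ := exists_lea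
  have hp : ((101 : ℕ) : Module.End (ZMod 101) (ℕ → ZMod 101)) = 0 := by
    rw [← map_natCast (algebraMap (ZMod 101) _), ZMod.natCast_self, map_zero]
  have : Fact (1 < 101) := ⟨by norm_num⟩
  obtain ⟨x, y, g0, g1, a, c, C⟩ := conf_of_lea hp L
  let K := closure (range y)
  have hK : Countable K := by
    have : K = (FreeGroup.lift y).range := (FreeGroup.range_lift_eq_closure).symm
    rw [this]
    exact (FreeGroup.lift y).rangeRestrict_surjective.countable
  let x' : Fin 7 → K := fun s => ⟨x s, C.xy s⟩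
  let y' : Fin 7 → K := fun s => ⟨y s, subset_closure ⟨s, rfl⟩⟩
  have ex : K.subtype '' range x' = range x := by rw [← range_comp]; rfl
  have ey : K.subtype '' range y' = range y := by rw [← range_comp]; rfl
  have cK : c ∈ K := (closure_le K).2 (range_subset_iff.2 C.xy) C.cx
  refine ⟨K, inferInstance, hK, x', y', ⟨g0, C.t0y⟩, ⟨g1, C.t1y⟩, ⟨a, C.ay⟩, ⟨c, cK⟩,
    Good.sub C.gx, Good.sub C.gy, fun s => mem_sub (ex ▸ C.c0 s), fun s => mem_sub (ex ▸ C.c1 s),
    fun s => mem_sub (ey ▸ C.xy s), mem_sub (ey ▸ C.t0y), mem_sub (ey ▸ C.t1y),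
    mem_sub (ey ▸ C.ay), fun s => mem_sub ?_, fun s => Subtype.ext (C.ax s),
    mem_sub (ex ▸ C.cx), fun h => C.ne (congrArg Subtype.val h)⟩
  rw [image_insert_eq, image_insert_eq, ex]
  exact C.yx s

end Pool.Agent.P.MP_7f9919_an.G73
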