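import Pool.Agent.P.MP_7f9919_an.G73.St5

/-! Calculus of negligible sequences and of asymptotic representations. -/

set_option autoImplicit false
set_option linter.unusedSectionVars false

namespace Pool.Agent.P.MP_7f9919_an.NH

open Matrix Filter Asymptotics
open scoped MatrixOrder ComplexOrder

variable {ι : ℕ → Type} [∀ k, Fintype (ι k)] {f g : ℕ → ℝ}

theorem Sm.zero : Sm ι fun _ => 0 := isLittleO_zero _ _

theorem Sm.add (hf : Sm ι f) (hg : Sm ι g) : Sm ι fun k => f k + g k := IsLittleO.add hf hg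

theorem Sm.cmul (hf : Sm ι f) (c : ℝ) : Sm ι fun k => c * f k := IsLittleO.const_mul_left hf c

theorem Sm.sum {α : Type} (s : Finset α) {F : α → ℕ → ℝ} (h : ∀ a ∈ s, Sm ι (F a)) :
    Sm ι fun k => ∑ a ∈ s, F a k := by
  have e : (fun k => ∑ a ∈ s, F a k) = ∑ a ∈ s, F a := by funext k; simp
  rw [e]; exact IsLittleO.sum h

theorem Sm.mono (hg : Sm ι g) (h0 : ∀ k, 0 ≤ f k) (h : ∀ k, f k ≤ g k) : Sm ι f :=
  (IsBigO.of_bound' (Eventually.of_forall fun k => by
    rw [Real.norm_of_nonneg (h0 k)]; exact (h k).trans (le_abs_self _))).trans_isLittleO hg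

theorem Sm.bound (hf : Sm ι f) {ε : ℝ} (hε : 0 < ε) :
    ∀ᶠ k in atTop, f k ≤ ε * Fintype.card (ι k) :=
  (IsLittleO.bound hf hε).mono fun k h => by
    rw [Real.norm_natCast] at h; exact (le_abs_self _).trans h

theorem Sm.of_bound (h0 : ∀ k, 0 ≤ f k)
    (h : ∀ ε : ℝ, 0 < ε → ∀ᶠ k in atTop, f k ≤ ε * Fintype.card (ι k)) : Sm ι f :=
  IsLittleO.of_bound fun ε hε => (h ε hε).mono fun k h => by
    rwa [Real.norm_natCast, Real.norm_of_nonneg (h0 k)]

theorem Sm.sqrt (hf : Sm ι f) : Sm ι fun k => √(Fintype.card (ι k) * f k) :=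
  Sm.of_bound (fun _ => Real.sqrt_nonneg _) fun ε hε =>
    (hf.bound (pow_pos hε 2)).mono fun k h => by
      have h0 : (0 : ℝ) ≤ Fintype.card (ι k) := Nat.cast_nonneg _
      rw [Real.sqrt_le_left (by positivity)]
      nlinarith [mul_le_mul_of_nonneg_left h h0]

variable [∀ k, DecidableEq (ι k)]

/-- asymptotically equal sequences of matrices -/
def Ap (X Y : ∀ k, Mat (ι k) (ι k)) : Prop := Sm ι fun k => ‖X k - Y k‖ ^ 2

variable {X Y Z X' Y' : ∀ k, Mat (ι k) (ι k)}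

theorem Ap.rfl : Ap X X := Sm.zero.mono (fun _ => sq_nonneg _) fun k => by simp

theorem Ap.of_eq (h : ∀ k, X k = Y k) : Ap X Y := by
  have : X = Y := funext h
  rw [this]; exact Ap.rfl

theorem Ap.symm (h : Ap X Y) : Ap Y X :=
  Sm.mono h (fun _ => sq_nonneg _) fun k => by rw [norm_sub_rev]

theorem Ap.trans (h : Ap X Y) (h' : Ap Y Z) : Ap X Z :=
  ((Sm.cmul h 2).add (Sm.cmul h' 2)).mono (fun _ => sq_nonneg _) fun k => by
    rw [← sub_add_sub_cancel (X k) (Y k) (Z k)]; exact norm_add_sq_le _ _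

theorem Ap.adj (h : Ap X Y) : Ap (fun k => (X k)ᴴ) fun k => (Y k)ᴴ :=
  Sm.mono h (fun _ => sq_nonneg _) fun k => by rw [← conjTranspose_sub, norm_adj]

theorem Ap.mul_left (h : Ap X Y) (hZ : ∀ k, Ctr (Z k)) :
    Ap (fun k => Z k * X k) fun k => Z k * Y k :=
  Sm.mono h (fun _ => sq_nonneg _) fun k => by
    rw [← Matrix.mul_sub]; exact (hZ k).norm_mul_sq_le _

theorem Ap.mul_right (h : Ap X Y) (hZ : ∀ k, Ctr (Z k)) :
    Ap (fun k => X k * Z k) fun k => Y k * Z k :=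
  Sm.mono h (fun _ => sq_nonneg _) fun k => by
    rw [← Matrix.sub_mul]; exact (hZ k).mul_norm_sq_le _

theorem Ap.mul (h : Ap X Y) (h' : Ap X' Y') (hX : ∀ k, Ctr (X k)) (hY : ∀ k, Ctr (Y' k)) :
    Ap (fun k => X k * X' k) fun k => Y k * Y' k :=
  (h'.mul_left hX).trans (h.mul_right hY)

variable {G : Type} [Group G] {u : ∀ k, G → Mat (ι k) (ι k)}

theorem AsRep.uni (h : AsRep u) (k : ℕ) (a : G) : IsUni (u k a) := h.1 k a

theorem AsRep.ctr (h : AsRep u) (a : G) (k : ℕ) : Ctr (u k a) := (h.1 k a).ctr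

theorem AsRep.mul (h : AsRep u) (a b : G) : Ap (fun k => u k (a * b)) fun k => u k a * u k b :=
  h.2 a b

theorem AsRep.one (h : AsRep u) : Ap (fun k => u k 1) fun _ => 1 := by
  have h1 := (h.mul 1 1).mul_left (Z := fun k => (u k 1)ᴴ) fun k => (h.ctr 1 k).adj
  refine (Ap.trans (Ap.of_eq fun k => ?_) (h1.trans (Ap.of_eq fun k => ?_))).symm
  · rw [one_mul, (h.uni k 1).1]
  · rw [← Matrix.mul_assoc, (h.uni k 1).1, Matrix.one_mul]

theorem AsRep.inv (h : AsRep u) (a : G) : Ap (fun k => u k a⁻¹) fun k => (u k a)ᴴ := by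
  have h1 : Ap (fun k => u k a⁻¹ * u k a) fun _ => 1 :=
    (h.mul a⁻¹ a).symm.trans (by simpa only [inv_mul_cancel] using h.one)
  have h2 := h1.mul_right (Z := fun k => (u k a)ᴴ) fun k => (h.ctr a k).adj
  refine (Ap.of_eq fun k => ?_).trans (h2.trans (Ap.of_eq fun k => Matrix.one_mul _))
  rw [Matrix.mul_assoc, (h.uni k a).2, Matrix.mul_one]

end Pool.Agent.P.MP_7f9919_an.NH
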