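import Pool.Agent.P.MP_7f9919_an.NH.B5

/-! Section 5 of the plan: definitions and statements of the packages. -/

set_option autoImplicit false
set_option linter.unusedVariables false
set_option linter.unusedSectionVars false

namespace Pool.Agent.P.MP_7f9919_an.NH

open Matrix Filter Asymptotics
open scoped MatrixOrder ComplexOrder

section defs
variable {n S : Type} [Fintype n] [Fintype S] [DecidableEq n]

/-- orthogonal projection onto the commutant -/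
noncomputable def EA (a : S → Mat n n) (y : Mat n n) : Mat n n := (Com a).starProjection y

theorem EA_mem (a : S → Mat n n) (y : Mat n n) : EA a y ∈ Com a :=
  (Com a).starProjection_apply_mem y

theorem EA_of_mem {a : S → Mat n n} {y : Mat n n} (h : y ∈ Com a) : EA a y = y :=
  Submodule.starProjection_eq_self_iff.2 h

theorem EA_orth {a : S → Mat n n} (y : Mat n n) {b : Mat n n} (h : b ∈ Com a) :
    trace (bᴴ * (y - EA a y)) = 0 :=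
  Submodule.inner_right_of_mem_orthogonal h ((Com a).sub_starProjection_mem_orthogonal y)

theorem EA_pyth {a : S → Mat n n} (y : Mat n n) {b : Mat n n} (h : b ∈ Com a) :
    ‖y - b‖ ^ 2 = ‖y - EA a y‖ ^ 2 + ‖EA a y - b‖ ^ 2 := by
  have h1 := EA_orth y ((Com a).sub_mem (EA_mem a y) h)
  have h2 : tr ((y - EA a y)ᴴ * (EA a y - b)) = 0 := by
    rw [tr_adj_mul_comm, tr, h1, Complex.zero_re]
  rw [← sub_add_sub_cancel y (EA a y) b, norm_add_sq, h2]; ring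

theorem EA_min {a : S → Mat n n} (y : Mat n n) {b : Mat n n} (h : b ∈ Com a) :
    ‖y - EA a y‖ ^ 2 ≤ ‖y - b‖ ^ 2 := by
  rw [EA_pyth y h]; exact le_add_of_nonneg_right (sq_nonneg _)

theorem EA_norm (a : S → Mat n n) (y : Mat n n) :
    ‖EA a y‖ ^ 2 = ‖y‖ ^ 2 - ‖y - EA a y‖ ^ 2 := by
  have := EA_pyth y (Com a).zero_mem
  rw [sub_zero, sub_zero] at this
  linarith

theorem GapC.le {a : S → Mat n n} {c : ℝ} (h : GapC a c) (hc : 0 ≤ c) (y : Mat n n) :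
    c * ‖y - EA a y‖ ^ 2 ≤ D2 a a y := by
  obtain ⟨b, hb, h⟩ := h y
  exact (mul_le_mul_of_nonneg_left (EA_min y hb) hc).trans h

end defs

/-- a frame of a matrix algebra, graded by central projections -/
structure Fr (n : Type) : Type 1 where
  Λ : Type
  [fΛ : Fintype Λ]
  [dΛ : DecidableEq Λ]
  I : Type
  [fI : Fintype I]
  z : Λ → Mat n n
  w : Λ → ℝ
  lab : I → Λ
  a : I → Mat n n

attribute [instance] Fr.fΛ Fr.dΛ Fr.fI

/-- the function of 5.3 -/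
noncomputable def psi (M l : ℝ) : ℝ := l / (l + M) - 1 / 2

section defs2
variable {n S : Type} [Fintype n] [Fintype S] [DecidableEq n]

/-- 5.1 -/
structure Fr.OK (F : Fr n) (VV : S → Mat n n) : Prop where
  wpos : ∀ l, 0 < F.w l
  zp : ∀ l, IsProj (F.z l)
  zs : ∑ l, F.z l = 1
  zo : ∀ l l', l ≠ l' → F.z l * F.z l' = 0
  zm : ∀ l, F.z l ∈ Com VV
  zc : ∀ l, ∀ x ∈ Com VV, F.z l * x = x * F.z l
  am : ∀ i, F.a i ∈ Com VV
  za : ∀ i, F.z (F.lab i) * F.a i = F.a i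
  s1 : ∀ l, ∑ i with F.lab i = l, F.a i * (F.a i)ᴴ = F.z l
  s2 : ∀ l, ∑ i with F.lab i = l, (F.a i)ᴴ * F.a i = F.z l
  par : ∀ y, ‖EA VV y‖ ^ 2 = ∑ i, F.w (F.lab i) * ‖trace ((F.a i)ᴴ * y)‖ ^ 2
  cm : ∀ y, ∀ x ∈ Com VV, x * ∑ i, F.a i * y * (F.a i)ᴴ = (∑ i, F.a i * y * (F.a i)ᴴ) * x

/-- the defect of the inclusion of `t A t*` in `A` -/
noncomputable def Fr.err (F : Fr n) (VV : S → Mat n n) (t : Mat n n) : ℝ :=
  ∑ i, ‖t * F.a i * tᴴ - EA VV (t * F.a i * tᴴ)‖ ^ 2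

/-- the joint distribution of the two index functions -/
noncomputable def Fr.nu (F : Fr n) (t : Mat n n) (l m : F.Λ) : ℝ := tr (F.z l * (t * F.z m * tᴴ))

/-- the index function at scale `M` -/
noncomputable def Fr.ps (F : Fr n) (M : ℝ) : Mat n n := ∑ l, psi M (F.w l) • F.z l

/-- the pieces cut out by the data of Theorem I -/
noncomputable def KD.q (d : KD n S) (j : d.J) : Mat n n := d.V * d.e j * d.Vᴴ

end defs2

/-- 5.1: frames exist; the projection onto the commutant is positive -/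
def S_Fr : Prop :=
  ∀ (n S : Type) [Fintype n] [DecidableEq n] [Fintype S] (VV : S → Mat n n),
    (∃ F : Fr n, F.OK VV) ∧ ∀ y, 0 ≤ y → 0 ≤ EA VV y

/-- 5.2 (a), (b), (c) -/
def S_Two : Prop :=
  ∀ (n S : Type) [Fintype n] [DecidableEq n] [Fintype S] (VV : S → Mat n n) (F : Fr n)
    (t : Mat n n), F.OK VV → IsUni t →
    ∑ l, ∑ m, F.nu t l m * max (1 - F.w m / F.w l) 0 ≤ F.err VV tᴴ ∧
    F.err VV t ≤ F.err VV tᴴ + ∑ l, ∑ m, F.nu t l m * max (1 - F.w l / F.w m) 0 ∧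
    ∀ v : Mat n n, Ctr v → (∀ x ∈ Com VV, x * v = v * x) →
      ∃ vb : Mat n n, Ctr vb ∧ (∀ x ∈ Com VV, t * x * tᴴ * vb = vb * (t * x * tᴴ)) ∧
        ‖v - vb‖ ^ 2 ≤ 4 * F.err VV t

/-- 5.3 and 5.4 -/
def S_Loc : Prop :=
  ∀ (n S J : Type) [Fintype n] [DecidableEq n] [Fintype S] [Fintype J] (VV : S → Mat n n)
    (F : Fr n) (t : Mat n n) (a : J → Mat n n) (M : J → ℝ) (e T Z G : ℝ), F.OK VV → IsUni t →
    (∀ j, a j ∈ Com VV) → (∀ j, (a j)ᴴ = a j) → ∑ j, a j * a j ≤ 1 → (∀ j, 0 < M j) →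
    ∑ l, ∑ m, F.nu t l m * max (1 - F.w m / F.w l) 0 ≤ e →
    T = ∑ j, ‖t * a j - a j * t‖ ^ 2 → Z = ∑ j, ‖F.ps (M j) * a j‖ ^ 2 →
    G = 2 * e + √(Fintype.card n * T) →
    ∑ j, ‖t * (F.ps (M j) * a j) - F.ps (M j) * a j * t‖ ^ 2 ≤ 2 * G + T / 2 ∧
    ∑ l, ∑ m, F.nu t l m * max (1 - F.w l / F.w m) 0 ≤ (Fintype.card n - ∑ j, ‖a j‖ ^ 2) +
      4 * √(Fintype.card n * Z) + 4 * √(Fintype.card n * (2 * G + 2 * Z))

/-- 5.5 -/
def S_Kill : Prop :=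
  ∀ (n S : Type) [Fintype n] [DecidableEq n] [Fintype S] (u : S → Mat n n) (d : KD n S)
    (c h : ℝ), 0 < c → d.OK u c h →
    ((∀ j, 0 ≤ d.q j) ∧ ∑ j, d.q j ≤ 1 ∧ ∑ j, D u u (d.q j) ≤ 2 * h ∧
      Fintype.card n - 2 * h ≤ ∑ j, ‖d.q j‖ ^ 2) ∧
    ∀ a ψ : d.J → Mat n n, (∀ j, 0 ≤ a j) → ∑ j, a j ≤ 1 → (∀ j, (ψ j)ᴴ = ψ j) →
      (∀ j, ψ j * ψ j ≤ (1 / 4 : ℝ) • (1 : Mat n n)) → (∀ j, ψ j * a j = a j * ψ j) →
      (∀ j, tr (ψ j * (a j * a j)) = 0) →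
      ∑ j, ‖ψ j * a j‖ ^ 2 ≤
        300 * ∑ j, ‖d.q j - a j‖ ^ 2 + 12 * h + 72 / c * (h + ∑ j, D u u (ψ j * a j))

/-- 5.6 (0): Theorem I along an asymptotic representation -/
def S_Diag : Prop :=
  ∀ (H S : Type) [Group H] [Fintype S] (x : S → H), ThmI (FreeGroup.lift x).ker →
    ∀ (ι : ℕ → Type) [∀ k, Fintype (ι k)] [∀ k, DecidableEq (ι k)]
      (u : ∀ k, H → Mat (ι k) (ι k)), AsRep u →
      ∃ c > 0, ∃ (d : ∀ k, KD (ι k) S) (h : ℕ → ℝ), Sm ι h ∧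
        ∀ k, (d k).OK (fun s => u k (x s)) c (h k)

/-- 5.6 (1): transport of an asymptotic representation -/
def S_Trans : Prop :=
  ∀ (H S : Type) [Group H] [Fintype S] (x : S → H)
    (ι : ℕ → Type) [∀ k, Fintype (ι k)] [∀ k, DecidableEq (ι k)]
    (u : ∀ k, H → Mat (ι k) (ι k)) (c : ℝ) (d : ∀ k, KD (ι k) S) (h : ℕ → ℝ), AsRep u → Sm ι h →
    (∀ k, (d k).OK (fun s => u k (x s)) c (h k)) →
    ∃ u' : ∀ k, H → Mat (d k).κ (d k).κ, AsRep (ι := fun k => (d k).κ) u' ∧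
      (∀ s, Sm (fun k => (d k).κ) fun k => ‖u' k (x s) - (d k).VV s‖ ^ 2) ∧
      ∀ g, Sm (fun k => (d k).κ) (fun k => ‖u' k g - 1‖ ^ 2) → Sm ι fun k => ‖u k g - 1‖ ^ 2

open scoped commutatorElement in
/-- 5.6 (2) - (6) -/
def S_Core : Prop :=
  ∀ (H : Type) [Group H] (x y : Fin 7 → H) (t0 t1 a g : H), G73.Conf x y t0 t1 a g →
    ∀ (ι : ℕ → Type) [∀ k, Fintype (ι k)] [∀ k, DecidableEq (ι k)]
      (u : ∀ k, H → Mat (ι k) (ι k)) (VV : ∀ k, Fin 7 → Mat (ι k) (ι k)) (c c' : ℝ)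
      (d : ∀ k, KD (ι k) (Fin 7)) (h : ℕ → ℝ), AsRep u → 0 < c → 0 < c' →
      (∀ k s, Ctr (VV k s)) → (∀ k, GapC (VV k) c) →
      (∀ s, Sm ι fun k => ‖u k (x s) - VV k s‖ ^ 2) → Sm ι h →
      (∀ k, (d k).OK (fun s => u k (y s)) c' (h k)) →
      Sm ι fun k => ‖u k ⁅t0 * a * t0⁻¹, g⁆ - 1‖ ^ 2

theorem ii_of (h1 : S_Diag) (h2 : S_Trans) (h3 : S_Core) : S_II := by
  intro H _ x y t0 t1 a g hC hx hy ι _ _ u hu
  obtain ⟨c, hc, d, h, hh, hd⟩ := h1 H _ x hx ι u hu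
  obtain ⟨u', hu', hV, hw⟩ := h2 H _ x ι u c d h hu hh hd
  obtain ⟨c', hc', d', h', hh', hd'⟩ := h1 H _ y hy (fun k => (d k).κ) u' hu'
  exact hw _ (h3 H x y t0 t1 a g hC (fun k => (d k).κ) u' (fun k => (d k).VV) c c' d' h' hu' hc
    hc' (fun k => (hd k).1.1) (fun k => (hd k).1.2.1) hV hh' hd')

end Pool.Agent.P.MP_7f9919_an.NH
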